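import Pool.Graph.R_pool_sql_team_seeded_707910d6.T2H20.AH.Gf

/-!
Families of integers with weights: the weight of an integer is the product of the weights of its
primes. The triples of a level two members of which have radicals in given families and small weights.
-/

set_option autoImplicit false

namespace Pool.Agent.H583.WT

open Finset Pool.Agent.H785R2.ABC Pool.Agent.H785R2.ABC.EC Pool.Agent.T2H20.ABC Pool.Agent.T2H20.AH

lemma one_le_prodR {s : Finset ℕ} {f : ℕ → ℝ} (h : ∀ p ∈ s, 1 ≤ f p) : 1 ≤ ∏ p ∈ s, f p := by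
  have := Finset.prod_le_prod (s := s) (f := fun _ => (1 : ℝ)) (g := f) (fun _ _ => zero_le_one) h
  rwa [Finset.prod_const_one] at this

/-- the weight of an integer: the product of the weights of its prime divisors -/
noncomputable def wt (ω : ℕ → ℝ) (n : ℕ) : ℝ := ∏ p ∈ n.primeFactors, ω p

/-- families of integers with all divisors, with few elements of small weight -/
structure Wml (ω : ℕ → ℝ) (F : ℕ → Prop) (G : ℝ) : Prop where
  her : ∀ m n, F n → m ∣ n → F m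
  G1 : 1 ≤ G
  w1 : ∀ p, p.Prime → 1 ≤ ω p
  wle : ∀ p, p.Prime → ω p ≤ p
  cnt : ∀ (Y : ℝ) (S : Finset ℕ), 1 ≤ Y → (∀ s ∈ S, Squarefree s ∧ F s ∧ wt ω s ≤ Y) →
    (S.card : ℝ) ≤ G * Y

lemma primeFactors_rad (n : ℕ) : (rad n).primeFactors = n.primeFactors := by
  unfold rad
  exact Nat.primeFactors_prod fun p hp => Nat.prime_of_mem_primeFactors hp

lemma squarefree_rad (n : ℕ) : Squarefree (rad n) :=
  (rad_mem_set (n := n) (S := n.primeFactors) subset_rfl).1

lemma wt_rad (ω : ℕ → ℝ) (n : ℕ) : wt ω (rad n) = wt ω n := by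
  unfold wt
  rw [primeFactors_rad]

open Classical in
/-- the numbers of a type with radical in the family, of a given dyadic size of the weight -/
noncomputable def BW (ω : ℕ → ℝ) (F : ℕ → Prop) (X A D : ℕ) (τ : (ℕ × ℕ × ℕ) × ℕ) : Finset ℕ :=
  (As X A D τ.1).filter fun v => F (rad v) ∧ (2 : ℝ) ^ τ.2 ≤ wt ω v ∧ wt ω v ≤ 2 ^ (τ.2 + 1)

open Classical in
/-- the roots with radical in the family and small weight -/
noncomputable def SW (ω : ℕ → ℝ) (F : ℕ → Prop) (N : ℕ) (Y : ℝ) : Finset ℕ :=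
  (Icc 1 N).filter fun v => F (rad v) ∧ wt ω v ≤ Y

lemma BW_sub {ω : ℕ → ℝ} {F : ℕ → Prop} {X A D : ℕ} {τ : (ℕ × ℕ × ℕ) × ℕ} :
    BW ω F X A D τ ⊆ As X A D τ.1 := by
  classical
  unfold BW
  exact filter_subset _ _

section

variable {ω : ℕ → ℝ} {F : ℕ → Prop} {G : ℝ}

lemma Wml.wt1 (hF : Wml ω F G) (n : ℕ) : 1 ≤ wt ω n :=
  one_le_prodR fun p hp => hF.w1 p (Nat.prime_of_mem_primeFactors hp)

lemma Wml.wt_mono (hF : Wml ω F G) {m n : ℕ} (hn : n ≠ 0) (h : m ∣ n) : wt ω m ≤ wt ω n := by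
  unfold wt
  have h1 := Nat.primeFactors_mono h hn
  rw [← Finset.prod_sdiff h1]
  apply le_mul_of_one_le_left
  · exact Finset.prod_nonneg fun p hp => by
      have := hF.w1 p (Nat.prime_of_mem_primeFactors hp)
      linarith
  · exact one_le_prodR fun p hp =>
      hF.w1 p (Nat.prime_of_mem_primeFactors (mem_sdiff.1 hp).1)

lemma Wml.wt_le_rad (hF : Wml ω F G) (n : ℕ) : wt ω n ≤ rad n := by
  unfold wt rad
  push_cast
  apply Finset.prod_le_prod
  · intro p hp
    have := hF.w1 p (Nat.prime_of_mem_primeFactors hp)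
    linarith
  · intro p hp
    exact hF.wle p (Nat.prime_of_mem_primeFactors hp)

/-- the number of the elements of a set of integers whose radicals belong to the family -/
lemma Wml.card_le (hF : Wml ω F G) {N K : ℕ} {Y : ℝ} (hY : 1 ≤ Y)
    (hK : ∀ r : ℕ, ((Icc 1 N).filter fun v => rad v = r).card ≤ K) (S : Finset ℕ)
    (hS : ∀ v ∈ S, 1 ≤ v ∧ v ≤ N ∧ F (rad v) ∧ wt ω v ≤ Y) :
    (S.card : ℝ) ≤ K * (G * Y) := by
  classical
  have h1 : S.card ≤ K * (S.image rad).card := by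
    apply Finset.card_le_mul_card_image
    intro r _
    refine le_trans (Finset.card_le_card ?_) (hK r)
    intro v hv
    rw [mem_filter] at hv ⊢
    exact ⟨mem_Icc.2 ⟨(hS v hv.1).1, (hS v hv.1).2.1⟩, hv.2⟩
  have h2 := hF.cnt Y (S.image rad) hY (by
    intro s hs
    rw [mem_image] at hs
    obtain ⟨v, hv, rfl⟩ := hs
    exact ⟨squarefree_rad v, (hS v hv).2.2.1, by rw [wt_rad]; exact (hS v hv).2.2.2⟩)
  calc (S.card : ℝ) ≤ ((K * (S.image rad).card : ℕ) : ℝ) := by exact_mod_cast h1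
    _ = K * ((S.image rad).card : ℝ) := by push_cast; ring
    _ ≤ _ := mul_le_mul_of_nonneg_left h2 (Nat.cast_nonneg _)

lemma BW_card (hF : Wml ω F G) {X A D K : ℕ} {τ : (ℕ × ℕ × ℕ) × ℕ}
    (hK : ∀ r : ℕ, ((Icc 1 (X ^ A)).filter fun v => rad v = r).card ≤ K) :
    ((BW ω F X A D τ).card : ℝ) ≤ (2 * K * G) * (2 : ℝ) ^ τ.2 := by
  classical
  have h1 := hF.card_le (N := X ^ A) (Y := 2 ^ (τ.2 + 1)) (one_le_pow₀ (by norm_num)) hK
    (BW ω F X A D τ) (by
    intro v hv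
    unfold BW at hv
    rw [mem_filter] at hv
    unfold As at hv
    rw [mem_filter, mem_Icc] at hv
    exact ⟨hv.1.1.1, hv.1.1.2, hv.2.1, hv.2.2.2⟩)
  refine h1.trans (le_of_eq ?_)
  ring

/-- the product of the sizes of the classes -/
lemma BW_prod (hF : Wml ω F G) {X A D K dd : ℕ} {N : ℝ} (τ : Ix dd → (ℕ × ℕ × ℕ) × ℕ)
    (hK : ∀ r : ℕ, ((Icc 1 (X ^ A)).filter fun v => rad v = r).card ≤ K)
    (z : Ix dd → ℕ) (hz : ∀ l, z l ∈ BW ω F X A D (τ l)) (hR : ∏ l, wt ω (z l) ≤ N) :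
    ∏ l, ((BW ω F X A D (τ l)).card : ℝ) ≤ (2 * K * G) ^ 2 ^ dd * N := by
  classical
  have hG := hF.G1
  calc ∏ l, ((BW ω F X A D (τ l)).card : ℝ)
      ≤ ∏ l, ((2 * K * G) * (2 : ℝ) ^ (τ l).2) :=
        Finset.prod_le_prod (fun _ _ => Nat.cast_nonneg _) fun l _ => BW_card hF hK
    _ = (2 * K * G) ^ 2 ^ dd * (∏ l, (2 : ℝ) ^ (τ l).2) := by
        rw [Finset.prod_mul_distrib, Finset.prod_const, Finset.card_univ, card_Ix]
    _ ≤ (2 * K * G) ^ 2 ^ dd * N := by
        apply mul_le_mul_of_nonneg_left _ (by positivity)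
        refine le_trans (Finset.prod_le_prod (fun _ _ => by positivity) fun l _ => ?_) hR
        have := hz l
        unfold BW at this
        rw [mem_filter] at this
        exact this.2.2.1

end

lemma coprime_of_prod_squarefree {ι : Type*} [Fintype ι] [DecidableEq ι] {r : ι → ℕ}
    (h : Squarefree (∏ l, r l)) {a b : ι} (hab : a ≠ b) : Nat.Coprime (r a) (r b) := by
  have h1 : r a * r b ∣ ∏ l, r l := by
    have h2 : ∏ l ∈ ({a, b} : Finset ι), r l = r a * r b := by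
      rw [Finset.prod_insert (by simpa using hab), Finset.prod_singleton]
    rw [← h2]
    exact Finset.prod_dvd_prod_of_subset _ _ _ (Finset.subset_univ _)
  exact Nat.coprime_of_squarefree_mul (h.squarefree_of_dvd h1)

lemma rad_coprime {a b : ℕ} (h : Nat.Coprime (rad a) (rad b)) :
    Disjoint a.primeFactors b.primeFactors := by
  rw [← primeFactors_rad a, ← primeFactors_rad b]
  exact h.disjoint_primeFactors

section

variable {e k κ d d1 U X A dd t wb n : ℕ} {ω : ℕ → ℝ} {F : ℕ → Prop} {G : ℝ}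

/-- the decomposition of a member, with the divisibility of the pieces and the weights -/
lemma member_typesW (hF : Wml ω F G) (he : 1 ≤ e) (hX : 2 ≤ X)
    (hU : 1 ≤ U) (hκ : 1 ≤ κ) (hd1 : d1 = κ * d)
    (T : Tp e κ d d1 X dd t wb n) {m D : ℕ} (H : Mc e X U d d1 A m)
    (hcop : m.Coprime D) (hm : F (rad m)) :
    ∃ kn ∈ Ks e A X, ∃ τ ∈ tup dd (fun _ => TT X t wb d d1 ×ˢ range (Nat.log 2 X + 1)),
      ∃ x : Ix dd → ℕ, (∀ l, x l ∈ BW ω F X A D (τ l)) ∧ rt U m = kn * ∏ l, x l ∧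
        ∏ l, rad (x l) ≤ X ∧ ∏ l, wt ω (x l) ≤ wt ω m := by
  classical
  have hwb : 1 ≤ wb := by
    refine le_trans ?_ T.hwb
    have : 0 < 103680000 * e ^ 2 * κ := by positivity
    omega
  have hd0 : 1 ≤ d := by
    refine le_trans ?_ T.hd
    have : 0 < 46080000 * e ^ 2 * (2 ^ dd) ^ 2 := by positivity
    omega
  have hdd1 : d ≤ d1 := by rw [hd1]; exact Nat.le_mul_of_pos_left _ (by omega)
  obtain ⟨x, h1, h2, h3⟩ := decompose (δ := dg U m) hX hd0 hdd1 hwb T.ht T.hgr T.hn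
    (mS U d d1 m) mS_prime (fun p hp => (mem_filter.1 hp).2) ((prod_sub_rad mS_t).trans H.rd)
  have hdv : ∀ l, x l ∣ rt U m := by
    intro l
    refine dvd_trans ?_ (pp_dvd_rt (S := mS U d d1 m) mS_sub')
    rw [← h2]
    exact Finset.dvd_prod_of_mem x (mem_univ l)
  have hdm : ∀ l, x l ∣ m := fun l => (hdv l).trans (rt_dvd hU H.t0.ne')
  have hx : ∀ l, ∃ τ ∈ TT X t wb d d1, x l ∈ As X A D τ := by
    intro l
    apply piece_type hwb (h1 l) (dvd_le H (hdv l)).2
    exact Nat.Coprime.coprime_dvd_left (hdm l) hcop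
  choose τ hτ1 hτ2 using hx
  have hx0 : ∀ l, x l ≠ 0 := fun l h0 => H.t0.ne' (by
    have := hdm l
    rw [h0, zero_dvd_iff] at this
    exact this)
  have hradx : ∀ l, rad (x l) ≤ X := fun l =>
    (Pool.Agent.T2H20.ABC.rad_le_of_dvd H.t0.ne' (hdm l)).trans H.rd
  obtain ⟨jj, hjj⟩ : ∃ jj : Ix dd → ℕ, ∀ l, jj l = Nat.log 2 ⌊wt ω (x l)⌋₊ := ⟨_, fun l => rfl⟩
  have hfl : ∀ l, 1 ≤ ⌊wt ω (x l)⌋₊ := fun l => Nat.le_floor (by exact_mod_cast hF.wt1 (x l))
  refine ⟨pp (kS U d d1 m) (dg U m), known_mem (by omega) H, fun l => (τ l, jj l), mem_tup.2 ?_,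
    x, ?_, ?_, ?_, ?_⟩
  · intro l
    rw [mem_product, mem_range]
    refine ⟨hτ1 l, ?_⟩
    simp only
    have h4 : ⌊wt ω (x l)⌋₊ ≤ X := by
      apply Nat.floor_le_of_le
      refine (hF.wt_le_rad (x l)).trans ?_
      exact_mod_cast hradx l
    rw [hjj]
    exact Nat.lt_succ_of_le (Nat.log_mono_right h4)
  · intro l
    unfold BW
    rw [mem_filter]
    refine ⟨hτ2 l, hF.her _ _ hm ?_, ?_, ?_⟩
    · exact Pool.Agent.T2H20.AH.rad_dvd_of_dvd (hdm l) H.t0.ne'
    · simp only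
      rw [hjj]
      have h5 : 2 ^ Nat.log 2 ⌊wt ω (x l)⌋₊ ≤ ⌊wt ω (x l)⌋₊ :=
        Nat.pow_log_le_self 2 (by have := hfl l; omega)
      have h6 : (⌊wt ω (x l)⌋₊ : ℝ) ≤ wt ω (x l) :=
        Nat.floor_le (zero_le_one.trans (hF.wt1 (x l)))
      calc (2 : ℝ) ^ Nat.log 2 ⌊wt ω (x l)⌋₊ ≤ ⌊wt ω (x l)⌋₊ := by exact_mod_cast h5
        _ ≤ _ := h6
    · simp only
      rw [hjj]
      have h5 : ⌊wt ω (x l)⌋₊ < 2 ^ (Nat.log 2 ⌊wt ω (x l)⌋₊ + 1) :=
        Nat.lt_pow_succ_log_self (by norm_num) _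
      have h6 : wt ω (x l) < (⌊wt ω (x l)⌋₊ : ℝ) + 1 := Nat.lt_floor_add_one _
      have h7 : ((⌊wt ω (x l)⌋₊ : ℝ) + 1) ≤ 2 ^ (Nat.log 2 ⌊wt ω (x l)⌋₊ + 1) := by
        exact_mod_cast h5
      linarith
  · rw [h2, km_eq]
  · rw [h3]
    exact (prod_sub_rad mS_t).trans H.rd
  · have hsq : Squarefree (∏ l, rad (x l)) := by
      rw [h3]
      have h8 : ∏ p ∈ mS U d d1 m, p ∣ rad m := by
        unfold rad
        exact Finset.prod_dvd_prod_of_subset _ _ _ mS_t
      exact (squarefree_rad m).squarefree_of_dvd h8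
    have hdis : ∀ a ∈ (univ : Finset (Ix dd)), ∀ b ∈ (univ : Finset (Ix dd)), a ≠ b →
        Disjoint (x a).primeFactors (x b).primeFactors := by
      intro a _ b _ hab
      exact rad_coprime (coprime_of_prod_squarefree hsq hab)
    have hpb : ∏ l, wt ω (x l) = ∏ p ∈ (univ : Finset (Ix dd)).biUnion (fun l => (x l).primeFactors),
        ω p := by
      rw [Finset.prod_biUnion (fun a ha b hb hab => hdis a ha b hb hab)]
      rfl
    rw [hpb]
    have hsub : (univ : Finset (Ix dd)).biUnion (fun l => (x l).primeFactors) ⊆ m.primeFactors := by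
      intro p hp
      rw [mem_biUnion] at hp
      obtain ⟨l, -, hl⟩ := hp
      exact Nat.primeFactors_mono (hdm l) H.t0.ne' hl
    unfold wt
    rw [← Finset.prod_sdiff hsub]
    apply le_mul_of_one_le_left
    · exact Finset.prod_nonneg fun p hp => by
        have := hF.w1 p (Nat.prime_of_mem_primeFactors (hsub hp))
        linarith
    · exact one_le_prodR fun p hp =>
        hF.w1 p (Nat.prime_of_mem_primeFactors (mem_sdiff.1 hp).1)

end

end Pool.Agent.H583.WT
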