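import Pool.Agent.H583.WT.A

/-!
The cases of a level, for members whose radicals belong to given families and have small weights.
-/

set_option autoImplicit false

namespace Pool.Agent.H583.WT

open Finset Pool.Agent.H785R2.ABC Pool.Agent.H785R2.ABC.EC Pool.Agent.T2H20.ABC Pool.Agent.T2H20.AH

section

variable {e k κ d d1 U X A dd t wb n : ℕ} {ω₁ ω₂ : ℕ → ℝ} {F₁ F₂ : ℕ → Prop} {G₁ G₂ N₁ N₂ : ℝ}

/-- **the third member is divisible by a large power of a small integer** -/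
theorem case1W (P : Pm e k κ d d1 U X) (T : Tp e κ d d1 X dd t wb n) {TN KN : ℕ} {M : ℝ}
    (hT : ∀ s : ℕ, 0 < s → s ≤ X ^ (2 * 2 ^ dd + 18) → s.divisors.card ≤ TN)
    (hK : ∀ r : ℕ, ((Icc 1 (X ^ A)).filter fun v => rad v = r).card ≤ KN)
    (hM : ∀ D : ℕ, D ^ e ≤ X ^ 4 → (D : ℝ) ≤ M) {i j c : Fin 3} (hij : i ≠ j) (hjc : j ≠ c)
    (hic : i ≠ c) (hF₁ : Wml ω₁ F₁ G₁) (hF₂ : Wml ω₂ F₂ G₂) (hN₁ : 1 ≤ N₁) (hN₂ : 1 ≤ N₂)
    (Q : Finset (ℕ × ℕ)) (hQ : ∀ q ∈ Q, Lc e X U d d1 A X X i j q ∧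
      (F₁ (rad (num (tri q) i)) ∧ F₂ (rad (num (tri q) j))) ∧
      (wt ω₁ (num (tri q) i) ≤ N₁ ∧ wt ω₂ (num (tri q) j) ≤ N₂) ∧
      Cheap e X U d (num (tri q) c)) :
    (Q.card : ℝ) ≤ (((DY e X d A).card : ℝ) * (((Ks e A X).card * (Ks e A X).card) *
      (((TT X t wb d d1).card * (Nat.log 2 X + 1)) ^ 2 ^ dd *
        ((TT X t wb d d1).card * (Nat.log 2 X + 1)) ^ 2 ^ dd))) *
      (Real.sqrt (N₁ * N₂) * (((2 * KN : ℝ) * (G₁ * G₂)) ^ 2 ^ dd *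
        (M * ((TN : ℝ) * KN) ^ 2 ^ dd))) := by
  classical
  have he := P.he
  have hU := P.U1
  have hX := P.X2
  have hG1 := hF₁.G1
  have hG2 := hF₂.G1
  have hM0 : 0 ≤ M := by
    have := hM 0 (by rw [zero_pow (by omega)]; exact Nat.zero_le _)
    exact_mod_cast this
  have hV0 : (0 : ℝ) ≤ Real.sqrt (N₁ * N₂) *
      (((2 * KN : ℝ) * (G₁ * G₂)) ^ 2 ^ dd * (M * ((TN : ℝ) * KN) ^ 2 ^ dd)) := by positivity
  obtain ⟨TTL, hTTL⟩ : ∃ TTL, TTL = TT X t wb d d1 ×ˢ range (Nat.log 2 X + 1) := ⟨_, rfl⟩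
  have htup : (tup dd (fun _ => TTL)).card = ((TT X t wb d d1).card * (Nat.log 2 X + 1)) ^ 2 ^ dd := by
    unfold tup
    rw [Fintype.card_piFinset, Finset.prod_const, Finset.card_univ, card_Ix, hTTL, card_product,
      card_range]
  have h1 := card_le_of_cover Q ((DY e X d A) ×ˢ ((Ks e A X ×ˢ Ks e A X) ×ˢ
      (tup dd (fun _ => TTL) ×ˢ tup dd (fun _ => TTL))))
    (fun z q => z.1.1 ^ (U * z.1.2) ∣ num (tri q) c ∧
      (∃ x : Ix dd → ℕ, (∀ l, x l ∈ BW ω₁ F₁ X A z.1.1 (z.2.2.1 l)) ∧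
        rt U (num (tri q) i) = z.2.1.1 * ∏ l, x l ∧ ∏ l, rad (x l) ≤ X ∧
        ∏ l, wt ω₁ (x l) ≤ N₁) ∧
      (∃ x : Ix dd → ℕ, (∀ l, x l ∈ BW ω₂ F₂ X A z.1.1 (z.2.2.2 l)) ∧
        rt U (num (tri q) j) = z.2.1.2 * ∏ l, x l ∧ ∏ l, rad (x l) ≤ X ∧
        ∏ l, wt ω₂ (x l) ≤ N₂))
    (Real.sqrt (N₁ * N₂) * (((2 * KN : ℝ) * (G₁ * G₂)) ^ 2 ^ dd *
        (M * ((TN : ℝ) * KN) ^ 2 ^ dd))) (by
      intro q hq
      obtain ⟨h, ⟨hf1, hf2⟩, ⟨hw1, hw2⟩, hch⟩ := hQ q hq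
      obtain ⟨⟨D, Y⟩, hz, hdv⟩ := DY_cheap P (h.mc c) hch
      obtain ⟨b1, b2, b3, b4, b5⟩ := DY_mem hz
      simp only at hdv b1 b2 b3 b4 b5
      have hde := P.d_e
      have hY : U * Y ≠ 0 := Nat.mul_ne_zero (by omega) (by omega)
      have hDd : D ∣ num (tri q) c := (dvd_pow_self D hY).trans hdv
      obtain ⟨kn1, hk1, τ1, ht1, x1, a1, a2, a3, a4⟩ := member_typesW hF₁ (D := D) (by omega) hX hU
        P.hκ P.hd1 T
        (h.mc i) (Nat.Coprime.coprime_dvd_right hDd (num_coprime h.pr.abc hic)) hf1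
      obtain ⟨kn2, hk2, τ2, ht2, x2, c1, c2, c3, c4⟩ := member_typesW hF₂ (D := D) (by omega) hX hU
        P.hκ P.hd1 T
        (h.mc j) (Nat.Coprime.coprime_dvd_right hDd (num_coprime h.pr.abc hjc)) hf2
      rw [← hTTL] at ht1 ht2
      refine ⟨((D, Y), ((kn1, kn2), (τ1, τ2))), ?_, hdv, ⟨x1, a1, a2, a3, a4.trans hw1⟩,
        ⟨x2, c1, c2, c3, c4.trans hw2⟩⟩
      exact mem_product.2 ⟨hz, mem_product.2 ⟨mem_product.2 ⟨hk1, hk2⟩,
        mem_product.2 ⟨ht1, ht2⟩⟩⟩) (by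
      rintro ⟨⟨D, Y⟩, ⟨kn1, kn2⟩, τ1, τ2⟩ hz
      rw [mem_product, mem_product, mem_product, mem_product] at hz
      obtain ⟨hz1, ⟨hk1, hk2⟩, ht1, ht2⟩ := hz
      simp only at hz1 hk1 hk2 ht1 ht2
      obtain ⟨b1, b2, b3, b4, b5⟩ := DY_mem hz1
      have hf := DY_f P hz1
      simp only at b1 b2 b3 b4 b5 hf
      obtain ⟨g1, g2, g3⟩ := P.D_log (b4.trans (Nat.pow_le_pow_right b1 (by omega : e ≤ 2 * e)))
      have hde := P.d_e
      have hY : U * Y ≠ 0 := Nat.mul_ne_zero (by omega) (by omega)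
      have hgood : ∀ (ω : ℕ → ℝ) (F : ℕ → Prop), ∀ τ ∈ TTL,
          Good D U (U * Y) (X ^ U) dd TN KN (BW ω F X A D τ) := by
        intro ω F τ hτ
        rw [hTTL, mem_product] at hτ
        exact (good_type (by omega) hU hX (by omega) b4 b3 (by omega) g2 T.hXm P.hd1 P.hκ
          T.hdd T.hdd1 T.hwb T.hd b5 hT hK (TT_ok hτ.1)).mono BW_sub
      set Q' := (Q.filter fun q => D ^ (U * Y) ∣ num (tri q) c ∧
          (∃ x : Ix dd → ℕ, (∀ l, x l ∈ BW ω₁ F₁ X A D (τ1 l)) ∧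
            rt U (num (tri q) i) = kn1 * ∏ l, x l ∧ ∏ l, rad (x l) ≤ X ∧
            ∏ l, wt ω₁ (x l) ≤ N₁) ∧
          (∃ x : Ix dd → ℕ, (∀ l, x l ∈ BW ω₂ F₂ X A D (τ2 l)) ∧
            rt U (num (tri q) j) = kn2 * ∏ l, x l ∧ ∏ l, rad (x l) ≤ X ∧
            ∏ l, wt ω₂ (x l) ≤ N₂)) with hQ'
      rcases Q'.eq_empty_or_nonempty with h0 | ⟨q0, hq0⟩
      · rw [h0, card_empty, Nat.cast_zero]
        exact hV0
      rw [hQ', mem_filter] at hq0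
      obtain ⟨-, -, ⟨x0, hx0, -, -, hx0'⟩, ⟨y0, hy0, -, -, hy0'⟩⟩ := hq0
      have hcb := class_bound' (A := A) (Z := U * Y) (T := TN) (K := KN)
        (R₁ := X) (R₂ := X) (by omega : 1 ≤ X) hU (by omega : 0 < D) hY hf hij hjc hic
        (fun l => BW ω₁ F₁ X A D (τ1 l)) (fun l => BW ω₂ F₂ X A D (τ2 l))
        (fun l => (τ1 l).1) (fun l => (τ2 l).1)
        kn1 kn2 (fun l => BW_sub) (fun l => BW_sub)
        (fun l => hgood ω₁ F₁ _ (mem_tup.1 ht1 l)) (fun l => hgood ω₂ F₂ _ (mem_tup.1 ht2 l))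
        (W₁ := (2 * KN * G₁) ^ 2 ^ dd * N₁)
        (W₂ := (2 * KN * G₂) ^ 2 ^ dd * N₂) (by positivity) (by positivity)
        (fun z hz hR => BW_prod hF₁ τ1 hK x0 hx0 hx0') (fun z hz hR => BW_prod hF₂ τ2 hK y0 hy0 hy0')
        Q' (by
          intro q hq
          rw [hQ', mem_filter] at hq
          obtain ⟨hq, h2, ⟨x, h3, h3', h3'', -⟩, ⟨y, h4, h4', h4'', -⟩⟩ := hq
          obtain ⟨h, -⟩ := hQ q hq
          exact ⟨h.pr, fun l => (h.mc l).rd, h2, ⟨x, h3, h3', h3''⟩, ⟨y, h4, h4', h4''⟩⟩)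
      have hDM := hM D b3
      refine le_of_sq_le_sq (hcb.trans ?_) hV0
      have h7 : Real.sqrt (N₁ * N₂) ^ 2 = N₁ * N₂ := Real.sq_sqrt (by positivity)
      have h8 : (((D * (TN * KN) ^ (2 ^ dd) : ℕ)) : ℝ) ^ 2 ≤
          (M * ((TN : ℝ) * KN) ^ (2 ^ dd)) ^ 2 := by
        push_cast
        exact pow_le_pow_left₀ (by positivity)
          (mul_le_mul_of_nonneg_right hDM (by positivity)) 2
      have h9 : (2 * (KN : ℝ) * G₁) ^ 2 ^ dd * (2 * KN * G₂) ^ 2 ^ dd ≤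
          (((2 * KN : ℝ) * (G₁ * G₂)) ^ 2 ^ dd) ^ 2 := by
        have e1 : (2 * (KN : ℝ) * G₁) ^ 2 ^ dd * (2 * KN * G₂) ^ 2 ^ dd =
            ((2 * (KN : ℝ)) ^ 2 ^ dd) ^ 2 * (G₁ * G₂) ^ 2 ^ dd := by
          rw [mul_pow, mul_pow, mul_pow (G₁) G₂]
          ring
        have e2 : (((2 * KN : ℝ) * (G₁ * G₂)) ^ 2 ^ dd) ^ 2 =
            ((2 * (KN : ℝ)) ^ 2 ^ dd) ^ 2 * ((G₁ * G₂) ^ 2 ^ dd) ^ 2 := by
          rw [mul_pow, mul_pow]
        rw [e1, e2]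
        apply mul_le_mul_of_nonneg_left _ (by positivity)
        have h3 : 1 ≤ G₁ * G₂ := by nlinarith
        exact le_self_pow₀ (one_le_pow₀ h3) two_ne_zero
      calc (2 * (KN : ℝ) * G₁) ^ 2 ^ dd * N₁ * ((2 * KN * G₂) ^ 2 ^ dd * N₂) *
            (((D * (TN * KN) ^ (2 ^ dd) : ℕ)) : ℝ) ^ 2
          = ((2 * (KN : ℝ) * G₁) ^ 2 ^ dd * (2 * KN * G₂) ^ 2 ^ dd) *
            (N₁ * N₂) *
            (((D * (TN * KN) ^ (2 ^ dd) : ℕ)) : ℝ) ^ 2 := by ring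
        _ ≤ (((2 * KN : ℝ) * (G₁ * G₂)) ^ 2 ^ dd) ^ 2 * (N₁ * N₂) *
            (M * ((TN : ℝ) * KN) ^ (2 ^ dd)) ^ 2 := by
            apply mul_le_mul _ h8 (by positivity) (by positivity)
            exact mul_le_mul_of_nonneg_right h9 (by positivity)
        _ = _ := by
            rw [mul_pow (Real.sqrt _), h7]
            ring)
  rw [card_product, card_product, card_product, card_product, htup] at h1
  push_cast at h1
  exact h1

/-- the second member is divisible by a large power -/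
theorem case2W (P : Pm e k κ d d1 U X) {ω : ℕ → ℝ} {F : ℕ → Prop} {G N : ℝ} (hF : Wml ω F G)
    {i j c : Fin 3} (hij : i ≠ j) (hjc : j ≠ c) (hic : i ≠ c)
    (Q : Finset (ℕ × ℕ)) (hQ : ∀ q ∈ Q, Lc e X U d d1 A X X i j q ∧
      F (rad (num (tri q) i)) ∧ wt ω (num (tri q) i) ≤ N ∧
      ¬ Cheap e X U d (num (tri q) c) ∧ Cheap e X U d (num (tri q) j)) :
    (Q.card : ℝ) ≤ (((DD e X U d A).card : ℝ) * ((SW ω F (X ^ A) N).card * (Ks e A X).card)) *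
      (Cf e k d1 * (X : ℝ) ^ ((12 * e : ℝ) / k)) := by
  classical
  apply padic_count P (DD e X U d A) (DD_ok P) (SW ω F (X ^ A) N) (Ks e A X) hic hjc.symm hij
  intro q hq
  obtain ⟨h, hf, hw, hc, hj⟩ := hQ q hq
  refine ⟨h.pr, fun l => (h.mc l).rd, DD_cheap P (h.mc j) hj, ?_, lm_fw P (h.mc c) hc⟩
  refine ⟨rt U (num (tri q) i), ?_, 1, fw_one _ (h.mc i)⟩
  unfold SW
  rw [mem_filter, mem_Icc]
  have hd := rt_dvd P.U1 (h.mc i).t0.ne'
  refine ⟨⟨rt_pos _ _, (h.mc i).v⟩, hF.her _ _ hf ?_, (hF.wt_mono (h.mc i).t0.ne' hd).trans hw⟩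
  exact Pool.Agent.T2H20.AH.rad_dvd_of_dvd hd (h.mc i).t0.ne'

/-- no member is divisible by a large power, the first one is divisible by a large power of a
large prime -/
theorem case4aW (P : Pm e k κ d d1 U X) {ω : ℕ → ℝ} {F : ℕ → Prop} {G N : ℝ} (hF : Wml ω F G)
    (hN : 1 ≤ N) {i j c : Fin 3} (hij : i ≠ j) (hjc : j ≠ c) (hic : i ≠ c)
    (Q : Finset (ℕ × ℕ)) (hQ : ∀ q ∈ Q, Lc e X U d d1 A X X i j q ∧
      F (rad (num (tri q) i)) ∧ wt ω (num (tri q) i) ≤ N ∧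
      ¬ Cheap e X U d (num (tri q) c) ∧ ¬ Cheap e X U d (num (tri q) j) ∧
      (lS e X U d d1 (num (tri q) i)).Nonempty) :
    (Q.card : ℝ) ≤ ((G * N) * ((Ks e A X).card * (Ks e A X).card)) *
      (Cf e k d1 * (X : ℝ) ^ ((12 * e : ℝ) / k)) := by
  classical
  set DS : Finset (ℕ × ℕ) := ((Icc 1 X).filter fun p => (X < p ^ (2 * e)) ∧ F p ∧ p.Prime ∧
    wt ω p ≤ N).image fun p => (p, U * d) with hDS
  have hcard : (DS.card : ℝ) ≤ G * N := by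
    have h1 : DS.card ≤ ((Icc 1 X).filter fun p => (X < p ^ (2 * e)) ∧ F p ∧ p.Prime ∧
        wt ω p ≤ N).card := card_image_le
    refine le_trans (by exact_mod_cast h1) (hF.cnt N _ hN ?_)
    intro s hs
    rw [mem_filter, mem_Icc] at hs
    exact ⟨hs.2.2.2.1.prime.squarefree, hs.2.2.1, hs.2.2.2.2⟩
  have h1 := padic_count P DS (by
    intro z hz
    rw [hDS, mem_image] at hz
    obtain ⟨p, hp, rfl⟩ := hz
    rw [mem_filter, mem_Icc] at hp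
    obtain ⟨⟨h1, h2⟩, h4, -, -⟩ := hp
    refine ⟨h2, h4.le, Nat.le_mul_of_pos_left _ (by norm_num), ?_⟩
    have hde := P.d_e
    have he := P.he
    have hU := P.U1
    obtain ⟨-, -, hD⟩ := P.D_log h4.le
    calc X ^ (2 * U) ≤ (p ^ (2 * e)) ^ (2 * U) := Nat.pow_le_pow_left h4.le _
      _ = p ^ (U * (4 * e)) := by rw [← pow_mul]; congr 1; ring
      _ < p ^ (U * d) := by
          apply Nat.pow_lt_pow_right (by omega)
          apply Nat.mul_lt_mul_of_pos_left _ (by omega)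
          omega) (Ks e A X) (Ks e A X) hjc hic.symm hij.symm Q (by
    intro q hq
    obtain ⟨h, hf, hw, hc, hj, p, hp⟩ := hQ q hq
    refine ⟨h.pr, fun l => (h.mc l).rd, ⟨(p, U * d), ?_, ?_⟩, lm_fw P (h.mc j) hj,
      lm_fw P (h.mc c) hc⟩
    · rw [hDS, mem_image]
      refine ⟨p, ?_, rfl⟩
      have hpp := lS_prime p hp
      have hpt := (lS_sub.trans mS_t) hp
      have hp1 : p ≤ rad (num (tri q) i) := by
        have h2 := prod_sub_rad (t := num (tri q) i) (S := {p})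
          (singleton_subset_iff.2 hpt)
        rwa [prod_singleton] at h2
      have hp2 : p ∣ rad (num (tri q) i) := by
        unfold rad
        exact Finset.dvd_prod_of_mem (fun p => p) hpt
      have hp3 : p ∣ num (tri q) i := Nat.dvd_of_mem_primeFactors hpt
      rw [mem_filter, mem_Icc]
      exact ⟨⟨hpp.one_le, hp1.trans (h.mc i).rd⟩, not_le.1 (mem_filter.1 hp).2,
        hF.her _ _ hf hp2, hpp, (hF.wt_mono (h.mc i).t0.ne' hp3).trans hw⟩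
    · show p ^ (U * d) ∣ num (tri q) i
      have hpp := lS_prime p hp
      have h2 : d ≤ dg U (num (tri q) i) p := (mem_filter.1 (lS_sub hp)).2.1
      calc p ^ (U * d) = (p ^ d) ^ U := by rw [← pow_mul, mul_comm]
        _ ∣ rt U (num (tri q) i) ^ U := by
            apply pow_dvd_pow_of_dvd
            exact (hpp.pow_dvd_iff_le_factorization (rt_pos _ _).ne').2 h2
        _ ∣ num (tri q) i := rt_pow_dvd (h.mc i).t0.ne')
  refine h1.trans ?_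
  have hC := Cf_pos e k d1 P.hk
  apply mul_le_mul_of_nonneg_right _ (by positivity)
  exact mul_le_mul_of_nonneg_right hcard (by positivity)

end

end Pool.Agent.H583.WT
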