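import Pool.Agent.H583.WT.B

/-!
The number of the triples of a level, for members whose radicals belong to given families and have
small weights. (Modification of the library module `T2H20.AH.Gd`, with weights in place of sizes.)
-/

set_option autoImplicit false

namespace Pool.Agent.H583.WT

open Finset Pool.Agent.H785R2.ABC Pool.Agent.H785R2.ABC.EC Pool.Agent.T2H20.ABC Pool.Agent.T2H20.AH

/-- **a level, for families of radicals** -/
theorem levelW (e k : ℕ) (η : ℝ) (he : 4 ≤ e) (hk : 1 ≤ k) (hη0 : 0 < η) (hη : 1 ≤ η * e)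
    (hηk : (12 * e : ℝ) / k ≤ η) (Ξ : ℕ) (hΞ : 1 ≤ Ξ) :
    ∃ d U₀ X₀ m : ℕ, ∃ C : ℝ, 1 ≤ d ∧ 1 ≤ U₀ ∧ 0 < C ∧ ∀ X U : ℕ, X₀ ≤ X → U₀ ≤ U →
    ∀ (ω₁ ω₂ : ℕ → ℝ) (F₁ F₂ : ℕ → Prop) (G₁ G₂ N₁ N₂ : ℝ), Wml ω₁ F₁ G₁ → Wml ω₂ F₂ G₂ →
    1 ≤ N₁ → N₁ ≤ N₂ → ∀ i j c : Fin 3, i ≠ j → j ≠ c → i ≠ c →
    ∀ Q : Finset (ℕ × ℕ), (∀ q ∈ Q, Pr q ∧ (∀ l, rad (num (tri q) l) ≤ X) ∧
      (wt ω₁ (num (tri q) i) ≤ N₁ ∧ wt ω₂ (num (tri q) j) ≤ N₂) ∧
      (F₁ (rad (num (tri q) i)) ∧ F₂ (rad (num (tri q) j))) ∧ X ^ (Ξ * d * U) ≤ q.1 + q.2 ∧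
      q.1 + q.2 ≤ X ^ (2 * (Ξ * d * U)) ∧ ∀ l, Win e X U d (num (tri q) l)) →
    (Q.card : ℝ) ≤ C * (G₁ * G₂) ^ m * (X : ℝ) ^ (16 * η) * Real.sqrt (N₁ * N₂) := by
  classical
  obtain ⟨κ, d, d1, dd, t, wb, n, U₀, X₀, hd, hU₀, hd1, hpar⟩ := params e k Ξ he hk hΞ
  obtain ⟨A, hA⟩ : ∃ A, A = 2 * Ξ * d := ⟨_, rfl⟩
  have hA1 : 1 ≤ A := by rw [hA]; exact Nat.mul_pos (by omega) (by omega)
  rw [← hA] at hd1
  obtain ⟨C₁, C₂, C₃, hC₁, hC₂, hC₃, hcon⟩ := consts η hη0 A dd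
  obtain ⟨CK, hCK, hKs⟩ := card_Ks e A hη0 (by omega) hη
  obtain ⟨DL, hDL, hL⟩ := log_pow_le (2 * 2 ^ dd) (η / 2) (by positivity)
  have hCf := Cf_pos e k d1 hk
  obtain ⟨Ae, hAe⟩ : ∃ Ae : ℝ, Ae = (A * e + 1 : ℕ) := ⟨_, rfl⟩
  have hAe0 : 0 < Ae := by rw [hAe]; positivity
  obtain ⟨CT, hCT⟩ : ∃ CT : ℝ, CT = ((d1 + 1 : ℕ) : ℝ) ^ (2 * 2 ^ dd) * DL := ⟨_, rfl⟩
  have hCT0 : 0 < CT := by rw [hCT]; positivity
  refine ⟨d, U₀, X₀ + 1, 2 ^ dd,
    (Ae * ((CK * CK) * (CT * CT))) * ((2 ^ 2 ^ dd * C₂) * (1 * (C₁ * C₂))) +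
    (Ae * (C₂ * CK)) * (Cf e k d1) + (Ae * (CK * CK)) * (Cf e k d1) + (CK * CK) * (Cf e k d1) +
    (CK * CK) * (Cf e k d1), hd, hU₀, by positivity, ?_⟩
  intro X U hX hU ω₁ ω₂ F₁ F₂ G₁ G₂ N₁ N₂ hF₁ hF₂ hN₁ hw i j c hij hjc hic Q hQ
  obtain ⟨P, T⟩ := hpar X U (by omega) hU
  have hX2 := P.X2
  have hU1 := P.U1
  have hXone : 1 ≤ X := by omega
  have hX0 : (0 : ℝ) < X := by exact_mod_cast hXone
  have hX1 : (1 : ℝ) ≤ X := by exact_mod_cast hXone
  have hG1 := hF₁.G1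
  have hG2 := hF₂.G1
  have hN₂ : 1 ≤ N₂ := hN₁.trans hw
  obtain ⟨w, hwd⟩ : ∃ w, w = Real.sqrt (N₁ * N₂) := ⟨_, rfl⟩
  rw [← hwd]
  have hsq1 : N₁ ≤ w := by
    rw [hwd]
    apply Real.le_sqrt_of_sq_le
    rw [sq]
    exact mul_le_mul_of_nonneg_left hw (by linarith)
  have hsq2 : (1 : ℝ) ≤ w := hN₁.trans hsq1
  obtain ⟨Γ, hΓ⟩ : ∃ Γ, Γ = G₁ * G₂ := ⟨_, rfl⟩
  have hΓ1 : 1 ≤ Γ := by rw [hΓ]; nlinarith
  have hG1Γ : G₁ ≤ Γ := by rw [hΓ]; nlinarith
  have hm1 : 1 ≤ 2 ^ dd := Nat.one_le_two_pow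
  have hΓm : Γ ≤ Γ ^ 2 ^ dd := le_self_pow₀ hΓ1 (by omega)
  have hΓm1 : 1 ≤ Γ ^ 2 ^ dd := one_le_pow₀ hΓ1
  obtain ⟨TN, KN, CN, hT, hK, hC, hTN, hKN, hCN⟩ := hcon X hXone
  have hks := hKs X hXone
  have hll := hL X hXone
  have hDYc := DY_card (d := d) (A := A) (X := X) hXone (by omega : 1 ≤ e) hη
  have hDDc := DD_card (U := U) (d := d) (A := A) (X := X) hXone (by omega : 1 ≤ e) hη
  rw [← hAe] at hDYc hDDc
  -- the members
  have hLc : ∀ q ∈ Q, Lc e X U d d1 A X X i j q := by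
    intro q hq
    obtain ⟨h1, h2, -, -, h5, h6, h7⟩ := hQ q hq
    refine ⟨h1, ?_, h2 i, h2 j, ?_⟩
    · intro l
      have ht0 : 0 < num (tri q) l := num_pos h1.abc l
      have hle : num (tri q) l ≤ X ^ (2 * (Ξ * d * U)) := (EC.num_le h1.abc l).trans h6
      have hv : rt U (num (tri q) l) ≤ X ^ A := by
        have h8 : rt U (num (tri q) l) ^ U ≤ (X ^ A) ^ U := by
          calc rt U (num (tri q) l) ^ U ≤ num (tri q) l :=
                Nat.le_of_dvd ht0 (rt_pow_dvd ht0.ne')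
            _ ≤ X ^ (2 * (Ξ * d * U)) := hle
            _ = (X ^ A) ^ U := by rw [← pow_mul, hA]; congr 1; ring
        exact (Nat.pow_le_pow_iff_left (by omega)).1 h8
      exact ⟨ht0, h2 l, hv, known_rad (A := A) (q := 4 * e) hA1 hU1 hd1 hv (h7 l)⟩
    · refine le_trans (Nat.pow_le_pow_right hXone ?_) h5
      calc U * d = 1 * (U * d) := (one_mul _).symm
        _ ≤ Ξ * (U * d) := Nat.mul_le_mul_right _ hΞ
        _ = Ξ * d * U := by ring
  -- the five parts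
  set P1 : ℕ × ℕ → Prop := fun q => Cheap e X U d (num (tri q) c) with hP1
  set P2 : ℕ × ℕ → Prop := fun q => Cheap e X U d (num (tri q) j) with hP2
  set P3 : ℕ × ℕ → Prop := fun q => Cheap e X U d (num (tri q) i) with hP3
  set P4 : ℕ × ℕ → Prop := fun q => (lS e X U d d1 (num (tri q) i)).Nonempty with hP4
  have hsplit : Q.card = (Q.filter fun q => P1 q).card +
      ((Q.filter fun q => ¬ P1 q).filter fun q => P2 q).card +
      (((Q.filter fun q => ¬ P1 q).filter fun q => ¬ P2 q).filter fun q => P3 q).card +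
      ((((Q.filter fun q => ¬ P1 q).filter fun q => ¬ P2 q).filter fun q => ¬ P3 q).filter
        fun q => P4 q).card +
      ((((Q.filter fun q => ¬ P1 q).filter fun q => ¬ P2 q).filter fun q => ¬ P3 q).filter
        fun q => ¬ P4 q).card := by
    have e1 : (Q.filter fun q => P1 q).card + (Q.filter fun q => ¬ P1 q).card = Q.card :=
      Finset.card_filter_add_card_filter_not (s := Q) P1
    have e2 : ((Q.filter fun q => ¬ P1 q).filter fun q => P2 q).card +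
        ((Q.filter fun q => ¬ P1 q).filter fun q => ¬ P2 q).card =
        (Q.filter fun q => ¬ P1 q).card :=
      Finset.card_filter_add_card_filter_not (s := Q.filter fun q => ¬ P1 q) P2
    have e3 : (((Q.filter fun q => ¬ P1 q).filter fun q => ¬ P2 q).filter fun q => P3 q).card +
        (((Q.filter fun q => ¬ P1 q).filter fun q => ¬ P2 q).filter fun q => ¬ P3 q).card =
        ((Q.filter fun q => ¬ P1 q).filter fun q => ¬ P2 q).card :=
      Finset.card_filter_add_card_filter_not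
        (s := (Q.filter fun q => ¬ P1 q).filter fun q => ¬ P2 q) P3
    have e4 : ((((Q.filter fun q => ¬ P1 q).filter fun q => ¬ P2 q).filter
          fun q => ¬ P3 q).filter fun q => P4 q).card +
        ((((Q.filter fun q => ¬ P1 q).filter fun q => ¬ P2 q).filter
          fun q => ¬ P3 q).filter fun q => ¬ P4 q).card =
        (((Q.filter fun q => ¬ P1 q).filter fun q => ¬ P2 q).filter fun q => ¬ P3 q).card :=
      Finset.card_filter_add_card_filter_not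
        (s := ((Q.filter fun q => ¬ P1 q).filter fun q => ¬ P2 q).filter fun q => ¬ P3 q) P4
    omega
  have hMD : ∀ D : ℕ, D ^ e ≤ X ^ 4 → (D : ℝ) ≤ (X : ℝ) ^ (4 * η) := fun D hD =>
    D_le hXone (by omega) hη hD
  have b1 := case1W P T (A := A) hT hK hMD hij hjc hic hF₁ hF₂ hN₁ hN₂
    (Q.filter fun q => P1 q) (by
    intro q hq
    rw [mem_filter] at hq
    exact ⟨hLc q hq.1, (hQ q hq.1).2.2.2.1, (hQ q hq.1).2.2.1, hq.2⟩)
  have b2 := case2W P (A := A) hF₁ hij hjc hic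
    ((Q.filter fun q => ¬ P1 q).filter fun q => P2 q) (by
    intro q hq
    rw [mem_filter, mem_filter] at hq
    exact ⟨hLc q hq.1.1, (hQ q hq.1.1).2.2.2.1.1, (hQ q hq.1.1).2.2.1.1, hq.1.2, hq.2⟩)
  have b3 := case3 P (A := A) (R₁ := X) (R₂ := X) hij hjc hic
    (((Q.filter fun q => ¬ P1 q).filter fun q => ¬ P2 q).filter fun q => P3 q) (by
    intro q hq
    rw [mem_filter, mem_filter, mem_filter] at hq
    exact ⟨hLc q hq.1.1.1, hq.1.1.2, hq.1.2, hq.2⟩)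
  have b4 := case4aW P (A := A) hF₁ hN₁ hij hjc hic
    ((((Q.filter fun q => ¬ P1 q).filter fun q => ¬ P2 q).filter fun q => ¬ P3 q).filter
        fun q => P4 q) (by
    intro q hq
    rw [mem_filter, mem_filter, mem_filter, mem_filter] at hq
    exact ⟨hLc q hq.1.1.1.1, (hQ q hq.1.1.1.1).2.2.2.1.1, (hQ q hq.1.1.1.1).2.2.1.1,
      hq.1.1.1.2, hq.1.1.2, hq.2⟩)
  have b5 := case4b P (A := A) (R₁ := X) (R₂ := X) (i := i) j
    ((((Q.filter fun q => ¬ P1 q).filter fun q => ¬ P2 q).filter fun q => ¬ P3 q).filter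
        fun q => ¬ P4 q) (by
    intro q hq
    rw [mem_filter, mem_filter, mem_filter, mem_filter] at hq
    refine ⟨hLc q hq.1.1.1.1, ?_, Finset.not_nonempty_iff_eq_empty.1 hq.2⟩
    intro l
    rcases three i j c l hij hjc hic with rfl | rfl | rfl
    · exact hq.1.2
    · exact hq.1.1.2
    · exact hq.1.1.1.2)
  rw [← hwd, ← hΓ] at b1
  -- the sizes
  have hf : Cf e k d1 * (X : ℝ) ^ ((12 * e : ℝ) / k) ≤ Cf e k d1 * (X : ℝ) ^ η :=
    mul_le_mul_of_nonneg_left (Real.rpow_le_rpow_of_exponent_le hX1 hηk) hCf.le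
  have hf0 : 0 ≤ Cf e k d1 * (X : ℝ) ^ ((12 * e : ℝ) / k) := by positivity
  have hTT : (((TT X t wb d d1).card : ℝ) * ((Nat.log 2 X : ℝ) + 1)) ^ 2 ^ dd ≤
      CT * (X : ℝ) ^ (η / 2) := by
    calc (((TT X t wb d d1).card : ℝ) * ((Nat.log 2 X : ℝ) + 1)) ^ 2 ^ dd ≤
          ((((d1 + 1) ^ 2 * (Nat.log 2 X + 1) : ℕ)) * ((Nat.log 2 X : ℝ) + 1)) ^ 2 ^ dd := by
          apply pow_le_pow_left₀ (by positivity)
          apply mul_le_mul_of_nonneg_right _ (by positivity)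
          exact_mod_cast TT_card X t wb d d1
      _ = ((d1 + 1 : ℕ) : ℝ) ^ (2 * 2 ^ dd) * ((Nat.log 2 X + 1 : ℕ) : ℝ) ^ (2 * 2 ^ dd) := by
          push_cast
          rw [mul_assoc, ← sq, ← mul_pow, ← pow_mul, mul_pow]
      _ ≤ ((d1 + 1 : ℕ) : ℝ) ^ (2 * 2 ^ dd) * (DL * (X : ℝ) ^ (η / 2)) :=
          mul_le_mul_of_nonneg_left hll (by positivity)
      _ = _ := by rw [hCT]; ring
  have hle16 : ∀ a : ℝ, a ≤ 16 * η → (X : ℝ) ^ a ≤ (X : ℝ) ^ (16 * η) := fun a ha =>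
    Real.rpow_le_rpow_of_exponent_le hX1 ha
  have hKN1 : (KN : ℝ) ≤ C₂ * (X : ℝ) ^ η := by
    refine le_trans ?_ hKN
    have : KN ≤ KN ^ 2 ^ dd := Nat.le_self_pow (by omega) _
    exact_mod_cast this
  have hkk := mul_exp (a := 2 * η) (b := 2 * η) hX0 hCK.le (Nat.cast_nonneg _) hks hks
  have htt := mul_exp (a := η / 2) (b := η / 2) hX0 hCT0.le (by positivity) hTT hTT
  have c1 : ((Q.filter fun q => P1 q).card : ℝ) ≤
      ((Ae * ((CK * CK) * (CT * CT))) * ((2 ^ 2 ^ dd * C₂) * (1 * (C₁ * C₂)))) *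
        Γ ^ 2 ^ dd * (X : ℝ) ^ (16 * η) * w := by
    have d1' := mul_exp hX0 (by positivity) (by positivity) hkk htt
    have d2 := mul_exp hX0 hAe0.le (by positivity) hDYc d1'
    have d3 : ((TN : ℝ) * KN) ^ 2 ^ dd ≤ (C₁ * C₂) * (X : ℝ) ^ (η + η) := by
      rw [mul_pow]
      exact mul_exp hX0 hC₁.le (by positivity) hTN hKN
    have d4 : (X : ℝ) ^ (4 * η) ≤ 1 * (X : ℝ) ^ (4 * η) := (one_mul _).ge
    have d5 := mul_exp hX0 zero_le_one (by positivity) d4 d3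
    have d0 : (2 * (KN : ℝ)) ^ 2 ^ dd ≤ (2 ^ 2 ^ dd * C₂) * (X : ℝ) ^ η := by
      rw [mul_pow, mul_assoc]
      exact mul_le_mul_of_nonneg_left hKN (by positivity)
    have d6 := mul_exp hX0 (by positivity) (by positivity) d0 d5
    have d7 := mul_exp hX0 (by positivity) (by positivity) d2 d6
    have e16 : 4 * η + (2 * η + 2 * η + (η / 2 + η / 2)) + (η + (4 * η + (η + η))) = 16 * η := by
      ring
    rw [e16] at d7
    refine b1.trans ?_
    calc _ = ((((DY e X d A).card : ℝ) * (((Ks e A X).card * (Ks e A X).card) *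
          (((TT X t wb d d1).card * ((Nat.log 2 X : ℝ) + 1)) ^ 2 ^ dd *
            ((TT X t wb d d1).card * ((Nat.log 2 X : ℝ) + 1)) ^ 2 ^ dd))) *
          ((2 * (KN : ℝ)) ^ 2 ^ dd * ((X : ℝ) ^ (4 * η) * ((TN : ℝ) * KN) ^ 2 ^ dd))) *
          (Γ ^ 2 ^ dd * w) := by rw [mul_pow (2 * (KN : ℝ)) Γ]; ring
      _ ≤ (((Ae * ((CK * CK) * (CT * CT))) * ((2 ^ 2 ^ dd * C₂) * (1 * (C₁ * C₂)))) *
          (X : ℝ) ^ (16 * η)) * (Γ ^ 2 ^ dd * w) :=
          mul_le_mul_of_nonneg_right d7 (by positivity)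
      _ = _ := by ring
  have c2 : (((Q.filter fun q => ¬ P1 q).filter fun q => P2 q).card : ℝ) ≤
      ((Ae * (C₂ * CK)) * (Cf e k d1)) * Γ ^ 2 ^ dd * (X : ℝ) ^ (16 * η) * w := by
    refine b2.trans ?_
    have hks' : ((Ks e A X).card : ℝ) ≤ CK * (X : ℝ) ^ (2 * η) := hks
    have hss : ((SW ω₁ F₁ (X ^ A) N₁).card : ℝ) ≤ C₂ * (X : ℝ) ^ η * (Γ ^ 2 ^ dd * w) := by
      have h1 := hF₁.card_le (N := X ^ A) (Y := N₁) hN₁ hK (SW ω₁ F₁ (X ^ A) N₁) (by
        intro v hv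
        unfold SW at hv
        rw [mem_filter, mem_Icc] at hv
        exact ⟨hv.1.1, hv.1.2, hv.2.1, hv.2.2⟩)
      refine h1.trans ?_
      apply mul_le_mul hKN1 _ (by positivity) (by positivity)
      exact mul_le_mul (hG1Γ.trans hΓm) hsq1 (by positivity) (by positivity)
    calc (((DD e X U d A).card : ℝ) * ((SW ω₁ F₁ (X ^ A) N₁).card * (Ks e A X).card)) *
          (Cf e k d1 * (X : ℝ) ^ ((12 * e : ℝ) / k))
        ≤ ((Ae * (X : ℝ) ^ (4 * η)) * ((C₂ * (X : ℝ) ^ η * (Γ ^ 2 ^ dd * w)) *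
          (CK * (X : ℝ) ^ (2 * η)))) * (Cf e k d1 * (X : ℝ) ^ η) := by
          apply mul_le_mul _ hf hf0 (by positivity)
          apply mul_le_mul hDDc _ (by positivity) (by positivity)
          exact mul_le_mul hss hks' (Nat.cast_nonneg _) (by positivity)
      _ = ((Ae * (C₂ * CK)) * (Cf e k d1)) * Γ ^ 2 ^ dd * ((X : ℝ) ^ (4 * η) * (X : ℝ) ^ η *
          (X : ℝ) ^ (2 * η) * (X : ℝ) ^ η) * w := by ring
      _ = ((Ae * (C₂ * CK)) * (Cf e k d1)) * Γ ^ 2 ^ dd * (X : ℝ) ^ (8 * η) * w := by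
          rw [← Real.rpow_add hX0, ← Real.rpow_add hX0, ← Real.rpow_add hX0]
          congr 3
          ring
      _ ≤ _ := by
          apply mul_le_mul_of_nonneg_right _ (by linarith)
          exact mul_le_mul_of_nonneg_left (hle16 _ (by linarith)) (by positivity)
  have c3 : ((((Q.filter fun q => ¬ P1 q).filter fun q => ¬ P2 q).filter
      fun q => P3 q).card : ℝ) ≤
      ((Ae * (CK * CK)) * (Cf e k d1)) * Γ ^ 2 ^ dd * (X : ℝ) ^ (16 * η) * w := by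
    refine b3.trans ?_
    calc (((DD e X U d A).card : ℝ) * ((Ks e A X).card * (Ks e A X).card)) *
          (Cf e k d1 * (X : ℝ) ^ ((12 * e : ℝ) / k))
        ≤ ((Ae * (X : ℝ) ^ (4 * η)) * ((CK * (X : ℝ) ^ (2 * η)) * (CK * (X : ℝ) ^ (2 * η)))) *
          (Cf e k d1 * (X : ℝ) ^ η) := by
          apply mul_le_mul _ hf hf0 (by positivity)
          apply mul_le_mul hDDc _ (by positivity) (by positivity)
          exact mul_le_mul hks hks (Nat.cast_nonneg _) (by positivity)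
      _ = ((Ae * (CK * CK)) * (Cf e k d1)) * ((X : ℝ) ^ (4 * η) * (X : ℝ) ^ (2 * η) *
          (X : ℝ) ^ (2 * η) * (X : ℝ) ^ η) := by ring
      _ = ((Ae * (CK * CK)) * (Cf e k d1)) * 1 * (X : ℝ) ^ (9 * η) * 1 := by
          rw [← Real.rpow_add hX0, ← Real.rpow_add hX0, ← Real.rpow_add hX0, mul_one, mul_one]
          congr 2
          ring
      _ ≤ _ := by
          apply mul_le_mul _ hsq2 (by positivity) (by positivity)
          exact mul_le_mul (mul_le_mul_of_nonneg_left hΓm1 (by positivity))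
            (hle16 _ (by linarith)) (by positivity) (by positivity)
  have c4 : (((((Q.filter fun q => ¬ P1 q).filter fun q => ¬ P2 q).filter
      fun q => ¬ P3 q).filter fun q => P4 q).card : ℝ) ≤
      ((CK * CK) * (Cf e k d1)) * Γ ^ 2 ^ dd * (X : ℝ) ^ (16 * η) * w := by
    refine b4.trans ?_
    have hgg : G₁ * N₁ ≤ Γ ^ 2 ^ dd * w :=
      mul_le_mul (hG1Γ.trans hΓm) hsq1 (by positivity) (by positivity)
    calc ((G₁ * N₁) * ((Ks e A X).card * (Ks e A X).card)) *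
          (Cf e k d1 * (X : ℝ) ^ ((12 * e : ℝ) / k))
        ≤ ((Γ ^ 2 ^ dd * w) * ((CK * (X : ℝ) ^ (2 * η)) * (CK * (X : ℝ) ^ (2 * η)))) *
          (Cf e k d1 * (X : ℝ) ^ η) := by
          apply mul_le_mul _ hf hf0 (by positivity)
          apply mul_le_mul hgg _ (by positivity) (by positivity)
          exact mul_le_mul hks hks (Nat.cast_nonneg _) (by positivity)
      _ = ((CK * CK) * (Cf e k d1)) * Γ ^ 2 ^ dd * ((X : ℝ) ^ (2 * η) *
          (X : ℝ) ^ (2 * η) * (X : ℝ) ^ η) * w := by ring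
      _ = ((CK * CK) * (Cf e k d1)) * Γ ^ 2 ^ dd * (X : ℝ) ^ (5 * η) * w := by
          rw [← Real.rpow_add hX0, ← Real.rpow_add hX0]
          congr 3
          ring
      _ ≤ _ := by
          apply mul_le_mul_of_nonneg_right _ (by linarith)
          exact mul_le_mul_of_nonneg_left (hle16 _ (by linarith)) (by positivity)
  have c5 : (((((Q.filter fun q => ¬ P1 q).filter fun q => ¬ P2 q).filter
      fun q => ¬ P3 q).filter fun q => ¬ P4 q).card : ℝ) ≤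
      ((CK * CK) * (Cf e k d1)) * Γ ^ 2 ^ dd * (X : ℝ) ^ (16 * η) * w := by
    refine b5.trans ?_
    calc (((Ks e A X).card : ℝ) * (Ks e A X).card) *
          (Cf e k d1 * (X : ℝ) ^ ((12 * e : ℝ) / k))
        ≤ (((CK * (X : ℝ) ^ (2 * η)) * (CK * (X : ℝ) ^ (2 * η)))) *
          (Cf e k d1 * (X : ℝ) ^ η) := by
          apply mul_le_mul _ hf hf0 (by positivity)
          exact mul_le_mul hks hks (Nat.cast_nonneg _) (by positivity)
      _ = ((CK * CK) * (Cf e k d1)) * ((X : ℝ) ^ (2 * η) *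
          (X : ℝ) ^ (2 * η) * (X : ℝ) ^ η) := by ring
      _ = ((CK * CK) * (Cf e k d1)) * 1 * (X : ℝ) ^ (5 * η) * 1 := by
          rw [← Real.rpow_add hX0, ← Real.rpow_add hX0, mul_one, mul_one]
          congr 2
          ring
      _ ≤ _ := by
          apply mul_le_mul _ hsq2 (by positivity) (by positivity)
          exact mul_le_mul (mul_le_mul_of_nonneg_left hΓm1 (by positivity))
            (hle16 _ (by linarith)) (by positivity) (by positivity)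
  rw [hsplit, ← hΓ]
  push_cast
  obtain ⟨V, hV⟩ : ∃ V, V = Γ ^ 2 ^ dd * (X : ℝ) ^ (16 * η) * w := ⟨_, rfl⟩
  have hre : ∀ a : ℝ, a * Γ ^ 2 ^ dd * (X : ℝ) ^ (16 * η) * w = a * V := by
    intro a; rw [hV]; ring
  rw [hre] at c1 c2 c3 c4 c5 ⊢
  linarith

end Pool.Agent.H583.WT
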