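import Pool.Agent.H583.WT.D
import Pool.Graph.R_pool_sql_team_seeded_707910d6.T2H20.AH.Ci

/-!
The exceptions of Oesterlé's inequality two members of which have radicals in given families and
small weights. (Modification of the library module `T2H20.AH.Gf`, with weights in place of sizes.)
-/

set_option autoImplicit false

namespace Pool.Agent.H583.WT

open Finset Pool.Agent.H785R2.ABC Pool.Agent.H785R2.ABC.EC Pool.Agent.T2H20.ABC Pool.Agent.T2H20.AH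

/-- **the exceptions two members of which have radicals in given families** -/
theorem exceptionsW (ε : ℝ) (hε : 0 < ε) : ∃ M m : ℕ, ∃ C : ℝ, 1 ≤ M ∧ 0 < C ∧
    ∀ X : ℕ, 1 ≤ X → ∀ (ω₁ ω₂ : ℕ → ℝ) (F₁ F₂ : ℕ → Prop) (G₁ G₂ N₁ N₂ : ℝ),
    Wml ω₁ F₁ G₁ → Wml ω₂ F₂ G₂ → 1 ≤ N₁ → 1 ≤ N₂ → ∀ Q : Finset (ℕ × ℕ),
    (∀ q ∈ Q, 0 < q.1 ∧ 0 < q.2 ∧ Nat.Coprime q.1 q.2 ∧ rad (q.1 * q.2 * (q.1 + q.2)) ≤ X ∧
      (∃ i j, i ≠ j ∧ (wt ω₁ (num (tri q) i) ≤ N₁ ∧ wt ω₂ (num (tri q) j) ≤ N₂) ∧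
        (F₁ (rad (num (tri q) i)) ∧ F₂ (rad (num (tri q) j)))) ∧
      rad (q.1 * q.2 * (q.1 + q.2)) ^ M ≤ q.1 + q.2) →
    (Q.card : ℝ) ≤ C * (G₁ * G₂) ^ m * (X : ℝ) ^ ε * Real.sqrt (N₁ * N₂) := by
  classical
  obtain ⟨K, m, C1, hC1, hc⟩ := box_famW (ε / 2) (by positivity)
  obtain ⟨DL, hDL, hL⟩ := log_pow_le 1 (ε / 2) (by positivity)
  refine ⟨2 * K + 1, m, 9 * DL * (C1 * 2 ^ (ε / 2)), by omega, by positivity, ?_⟩
  intro X hX ω₁ ω₂ F₁ F₂ G₁ G₂ N₁ N₂ hF₁ hF₂ hN₁ hN₂ Q hQ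
  have hG1 := hF₁.G1
  have hG2 := hF₂.G1
  obtain ⟨w, hwd⟩ : ∃ w, w = Real.sqrt (N₁ * N₂) := ⟨_, rfl⟩
  have hw0 : 0 ≤ w := by rw [hwd]; exact Real.sqrt_nonneg _
  obtain ⟨Γ, hΓ⟩ : ∃ Γ, Γ = G₁ * G₂ := ⟨_, rfl⟩
  have hΓ1 : 1 ≤ Γ := by rw [hΓ]; nlinarith
  rw [← hwd, ← hΓ]
  have hX0 : (0 : ℝ) < X := by exact_mod_cast hX
  have hX1 : (1 : ℝ) ≤ X := by exact_mod_cast hX
  set ρ : ℕ × ℕ → ℕ := fun q => rad (q.1 * q.2 * (q.1 + q.2)) with hρ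
  have hρ2 : ∀ q ∈ Q, 2 ≤ ρ q := by
    intro q hq
    obtain ⟨g1, g2, -⟩ := hQ q hq
    obtain ⟨p, hp, hpd⟩ := Nat.exists_prime_and_dvd (by omega : q.1 + q.2 ≠ 1)
    calc 2 ≤ p := hp.two_le
      _ = rad p := by unfold rad; rw [hp.primeFactors, prod_singleton]
      _ ≤ rad (q.1 * q.2 * (q.1 + q.2)) :=
        Pool.Agent.T2H20.ABC.rad_le_of_dvd (by positivity) (hpd.trans (Dvd.intro_left _ rfl))
  have b1 : (Q.card : ℝ) ≤ (((univ : Finset (Fin 3 × Fin 3)) ×ˢ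
      (range (Nat.log 2 X + 1))).card : ℝ) *
        (C1 * Γ ^ m * (2 * X : ℝ) ^ (ε / 2) * w) := by
    apply card_le_of_cover _ _ (fun z q => (z.1.1 ≠ z.1.2 ∧ (wt ω₁ (num (tri q) z.1.1) ≤ N₁ ∧
      wt ω₂ (num (tri q) z.1.2) ≤ N₂) ∧
      (F₁ (rad (num (tri q) z.1.1)) ∧ F₂ (rad (num (tri q) z.1.2)))) ∧ z.2 = Nat.log 2 (ρ q))
    · intro q hq
      obtain ⟨g1, g2, g3, g4, ⟨i, j, g5⟩, g6⟩ := hQ q hq
      refine ⟨((i, j), Nat.log 2 (ρ q)), ?_, g5, rfl⟩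
      rw [mem_product, mem_range]
      refine ⟨mem_univ _, ?_⟩
      show Nat.log 2 (ρ q) < Nat.log 2 X + 1
      exact Nat.lt_succ_of_le (Nat.log_mono_right g4)
    · rintro ⟨⟨i, j⟩, u⟩ _
      simp only
      set Q' := Q.filter fun q => (i ≠ j ∧ (wt ω₁ (num (tri q) i) ≤ N₁ ∧
        wt ω₂ (num (tri q) j) ≤ N₂) ∧ (F₁ (rad (num (tri q) i)) ∧ F₂ (rad (num (tri q) j)))) ∧
        u = Nat.log 2 (ρ q) with hQ'
      rcases Q'.eq_empty_or_nonempty with h0 | ⟨q0, hq0⟩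
      · rw [h0, card_empty, Nat.cast_zero]
        positivity
      have hmem : ∀ q ∈ Q', q ∈ Q ∧ (i ≠ j ∧ (wt ω₁ (num (tri q) i) ≤ N₁ ∧
          wt ω₂ (num (tri q) j) ≤ N₂) ∧
          (F₁ (rad (num (tri q) i)) ∧ F₂ (rad (num (tri q) j)))) ∧ 2 ^ u ≤ ρ q ∧ ρ q < 2 ^ (u + 1) := by
        intro q hq
        rw [hQ', mem_filter] at hq
        obtain ⟨h1, h2, h3⟩ := hq
        have h4 := hρ2 q h1
        refine ⟨h1, h2, ?_, ?_⟩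
        · rw [h3]; exact Nat.pow_log_le_self 2 (by omega)
        · rw [h3]; exact Nat.lt_pow_succ_log_self (by norm_num) _
      obtain ⟨Y, hY⟩ : ∃ Y, Y = 2 ^ (u + 1) := ⟨_, rfl⟩
      have hYX : Y ≤ 2 * X := by
        obtain ⟨h1, h2, h3, h4⟩ := hmem q0 hq0
        rw [hY, pow_succ]
        have h5 : ρ q0 ≤ X := (hQ q0 h1).2.2.2.1
        omega
      have hY1 : 1 ≤ Y := by rw [hY]; exact Nat.one_le_two_pow
      have hij := (hmem q0 hq0).2.1.1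
      have hmain := hc Y hY1 ω₁ ω₂ F₁ F₂ G₁ G₂ N₁ N₂ hF₁ hF₂ hN₁ hN₂ i j hij Q' (by
        intro q hq
        obtain ⟨h1, ⟨-, h2, h2'⟩, h3, h4⟩ := hmem q hq
        obtain ⟨g1, g2, g3, g4, -, g6⟩ := hQ q h1
        have hρq := hρ2 q h1
        have hYρ : Y ≤ 2 * ρ q := by rw [hY, pow_succ]; omega
        refine ⟨⟨g1, g2, g3⟩, ?_, h2, h2', ?_⟩
        · intro l
          exact rads_le' g1 g2 (by rw [hY]; exact h4.le) l
        · calc Y ^ K ≤ (ρ q * ρ q) ^ K := by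
                apply Nat.pow_le_pow_left
                exact hYρ.trans (Nat.mul_le_mul_right _ hρq)
            _ = ρ q ^ (2 * K) := by rw [← sq, ← pow_mul]
            _ ≤ ρ q ^ (2 * K + 1) := Nat.pow_le_pow_right (by omega) (by omega)
            _ ≤ q.1 + q.2 := g6)
      rw [← hwd, ← hΓ] at hmain
      refine hmain.trans ?_
      have hYXr : (Y : ℝ) ≤ 2 * X := by exact_mod_cast hYX
      have hY0 : (0 : ℝ) ≤ Y := Nat.cast_nonneg _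
      have e1 : (Y : ℝ) ^ (ε / 2) ≤ (2 * X : ℝ) ^ (ε / 2) :=
        Real.rpow_le_rpow hY0 hYXr (by positivity)
      exact mul_le_mul_of_nonneg_right (mul_le_mul_of_nonneg_left e1 (by positivity)) hw0
  rw [card_product, card_range, card_univ, Fintype.card_prod, Fintype.card_fin] at b1
  have h11 := hL X hX
  rw [pow_one] at h11
  refine b1.trans ?_
  have hV0 : (0 : ℝ) ≤ C1 * Γ ^ m * (2 * X : ℝ) ^ (ε / 2) * w := by positivity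
  calc ((3 * 3 * (Nat.log 2 X + 1) : ℕ) : ℝ) *
        (C1 * Γ ^ m * (2 * X : ℝ) ^ (ε / 2) * w) ≤
      (9 * (DL * (X : ℝ) ^ (ε / 2))) *
        (C1 * Γ ^ m * (2 * X : ℝ) ^ (ε / 2) * w) := by
        apply mul_le_mul_of_nonneg_right _ hV0
        push_cast at h11 ⊢
        linarith
    _ = 9 * DL * (C1 * 2 ^ (ε / 2)) * Γ ^ m * (X : ℝ) ^ ε * w := by
        have e1 : (2 * X : ℝ) ^ (ε / 2) = 2 ^ (ε / 2) * (X : ℝ) ^ (ε / 2) :=
          Real.mul_rpow (by norm_num) hX0.le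
        have e3 : (X : ℝ) ^ ε = (X : ℝ) ^ (ε / 2) * (X : ℝ) ^ (ε / 2) := by
          rw [← Real.rpow_add hX0, add_halves]
        rw [e1, e3]
        ring



end Pool.Agent.H583.WT
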