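import Pool.Agent.H583.WT.K

/-!
Values of products of linear forms: the exceptions to `max (|u|, |v|) < rad (F (u, v)) ^ M`, for
which few primes outside of a finite set `K` divide the values.
-/

set_option autoImplicit false

namespace Pool.Agent.H583.WT

open Finset Pool.Agent.T2H20.ABC Pool.Agent.T2H20.AH Pool.Agent.H785R2.ABC Pool.Agent.H583.SF

/-- the bound for one pair of forms and one pair of dyadic bounds of the radicals -/
theorem one_boxW (k : ℕ) (hk : 3 ≤ k) (L : Fin k → ℤ × ℤ) (hL : ∀ i j, i ≠ j → det L i j ≠ 0)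
    (ε : ℝ) (hε : 0 < ε) : ∃ M m : ℕ, ∃ C : ℝ, 1 ≤ M ∧ 0 < C ∧ ∀ (X R₁ R₂ : ℕ), 1 ≤ X → 1 ≤ R₁ →
    1 ≤ R₂ → ∀ (K : Finset ℕ), (∀ i j, i ≠ j → (det L i j).natAbs.primeFactors ⊆ K) →
    ∀ (i j : Fin k), i ≠ j → ∀ Q : Finset (ℤ × ℤ),
    (∀ p ∈ Q, IsCoprime p.1 p.2 ∧ ∏ i, val L i p ≠ 0 ∧ zr (∏ i, val L i p) ≤ X ∧
      2 ≤ zr (∏ i, val L i p) ∧ zr (∏ i, val L i p) ^ M ≤ max p.1.natAbs p.2.natAbs ∧
      zn K (val L i p) ≤ R₁ ∧ zn K (val L j p) ≤ R₂) →
    (Q.card : ℝ) ≤ C * (2 ^ K.card) ^ m * (X : ℝ) ^ ε * Real.sqrt ((R₁ : ℝ) * R₂) := by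
  classical
  obtain ⟨M₀, m₀, C₀, hM₀, hC₀, h0⟩ := pairsW ε hε
  obtain ⟨Δ, hΔ, hΔ1, hΔ2, hΔ3⟩ := exists_const L
  obtain ⟨E, hE⟩ : ∃ E, 2 * Δ ^ (M₀ + 2) ≤ 2 ^ E := ⟨2 * Δ ^ (M₀ + 2), Nat.lt_two_pow_self.le⟩
  have hΔr : (1 : ℝ) ≤ Δ := by exact_mod_cast hΔ
  refine ⟨M₀ + E, m₀, C₀ * (Δ + 1) * (Δ : ℝ) ^ ε, by omega, by positivity, ?_⟩
  intro X R₁ R₂ hX hR₁ hR₂ K hK i j hij Q hQ
  obtain ⟨l, hli, hlj⟩ : ∃ l : Fin k, l ≠ i ∧ l ≠ j := by
    have : (({i, j} : Finset (Fin k)))ᶜ.Nonempty := by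
      rw [← Finset.card_pos, Finset.card_compl, Fintype.card_fin]
      have := Finset.card_le_two (a := i) (b := j)
      omega
    obtain ⟨l, hl⟩ := this
    rw [Finset.mem_compl, Finset.mem_insert, Finset.mem_singleton, not_or] at hl
    exact ⟨l, hl.1, hl.2⟩
  have dij := hL i j hij
  have djl := hL j l hlj.symm
  have dli := hL l i hli
  -- the map to pairs
  set f : ℤ × ℤ → ℤ × ℤ := fun p => (det L j l * val L i p, det L l i * val L j p) with hf
  have hinj : Function.Injective f := by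
    intro p q hpq
    have h1 := congrArg Prod.fst hpq
    have h2 := congrArg Prod.snd hpq
    simp only [hf] at h1 h2
    have e1 : val L i p = val L i q := mul_left_cancel₀ djl h1
    have e2 : val L j p = val L j q := mul_left_cancel₀ dli h2
    have e3 : p.1 = q.1 := mul_left_cancel₀ dij (by rw [cramer1, cramer1, e1, e2])
    have e4 : p.2 = q.2 := mul_left_cancel₀ dij (by rw [cramer2, cramer2, e1, e2])
    exact Prod.ext e3 e4
  have h1 := h0 (Δ * X) R₁ R₂ Δ (Nat.mul_pos hΔ hX) hR₁ hR₂ hΔ K (Q.image f) (by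
    intro q hq
    obtain ⟨p, hp, rfl⟩ := Finset.mem_image.1 hq
    obtain ⟨p1, p2, p3, p4, p5, p7, p8⟩ := hQ p hp
    have vne : ∀ i, val L i p ≠ 0 := fun i => (Finset.prod_ne_zero_iff.1 p2) i (Finset.mem_univ _)
    have vdvd : ∀ i, val L i p ∣ ∏ i, val L i p := fun i => Finset.dvd_prod_of_mem _ (Finset.mem_univ _)
    have zrd : ∀ i j, det L i j ≠ 0 → zr (det L i j) ≤ Δ := fun i j h =>
      (rad_le_self (Int.natAbs_ne_zero.2 h)).trans (hΔ2 i j)
    have hsum : det L j l * val L i p + det L l i * val L j p = -(det L i j * val L l p) := rel L i j l p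
    have hmulle : ∀ a b : ℤ, a ≠ 0 → b ≠ 0 → zr (a * b) ≤ zr a * zr b := by
      intro a b ha hb
      unfold zr
      rw [Int.natAbs_mul]
      exact rad_mul_le (Int.natAbs_ne_zero.2 ha) (Int.natAbs_ne_zero.2 hb)
    -- the product of the three members
    have hthree : ∃ e : ℤ, e ≠ 0 ∧ e.natAbs ≤ Δ ∧
        det L j l * val L i p * (det L l i * val L j p) *
          (det L j l * val L i p + det L l i * val L j p) =
        e * (val L i p * val L j p * val L l p) := by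
      refine ⟨-(det L j l * det L l i * det L i j),
        neg_ne_zero.2 (mul_ne_zero (mul_ne_zero djl dli) dij), by rw [Int.natAbs_neg]; exact hΔ1 i j l, ?_⟩
      rw [hsum]; ring
    obtain ⟨e, he0, heΔ, he⟩ := hthree
    have h3ne : val L i p * val L j p * val L l p ≠ 0 := mul_ne_zero (mul_ne_zero (vne i) (vne j)) (vne l)
    have h3dvd : val L i p * val L j p * val L l p ∣ ∏ i, val L i p := by
      have : ∏ t ∈ ({i, j, l} : Finset (Fin k)), val L t p = val L i p * val L j p * val L l p := by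
        rw [Finset.prod_insert (by simp [hij, hli.symm]), Finset.prod_insert (by simp [hlj.symm]),
          Finset.prod_singleton, mul_assoc]
      rw [← this]
      exact Finset.prod_dvd_prod_of_subset _ _ _ (Finset.subset_univ _)
    have hr3 : zr (val L i p * val L j p * val L l p) ≤ zr (∏ i, val L i p) := zr_le_of_dvd p2 h3dvd
    have hrad : zr (det L j l * val L i p * (det L l i * val L j p) *
          (det L j l * val L i p + det L l i * val L j p)) ≤ Δ * zr (∏ i, val L i p) := by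
      rw [he]
      refine (hmulle _ _ he0 h3ne).trans (Nat.mul_le_mul ?_ hr3)
      exact (rad_le_self (Int.natAbs_ne_zero.2 he0)).trans heΔ
    refine ⟨mul_ne_zero djl (vne i), mul_ne_zero dli (vne j), ?_, ?_, hrad.trans (Nat.mul_le_mul_left _ p3),
      ?_, ?_, ?_⟩
    · show det L j l * val L i p + det L l i * val L j p ≠ 0
      rw [hsum]
      exact neg_ne_zero.2 (mul_ne_zero dij (vne l))
    · -- gcd
      show Int.gcd (det L j l * val L i p) (det L l i * val L j p) ≤ Δ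
      obtain ⟨a', b', hab⟩ := p1
      set g := Int.gcd (det L j l * val L i p) (det L l i * val L j p) with hg
      have g1 : (g : ℤ) ∣ det L j l * det L l i * val L i p := by
        rw [mul_assoc, mul_comm (det L l i), ← mul_assoc]
        exact Dvd.dvd.mul_right (Int.gcd_dvd_left _ _) _
      have g2 : (g : ℤ) ∣ det L j l * det L l i * val L j p := by
        rw [mul_assoc]
        exact Dvd.dvd.mul_left (Int.gcd_dvd_right _ _) _
      have g3 : (g : ℤ) ∣ det L j l * det L l i * (det L i j * p.1) := by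
        rw [cramer1, mul_sub]
        refine dvd_sub ?_ ?_
        · rw [mul_left_comm]; exact Dvd.dvd.mul_left g1 _
        · rw [mul_left_comm]; exact Dvd.dvd.mul_left g2 _
      have g4 : (g : ℤ) ∣ det L j l * det L l i * (det L i j * p.2) := by
        rw [cramer2, mul_sub]
        refine dvd_sub ?_ ?_
        · rw [mul_left_comm]; exact Dvd.dvd.mul_left g2 _
        · rw [mul_left_comm]; exact Dvd.dvd.mul_left g1 _
      have g5 : (g : ℤ) ∣ det L j l * det L l i * det L i j := by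
        have : det L j l * det L l i * det L i j = a' * (det L j l * det L l i * (det L i j * p.1)) +
            b' * (det L j l * det L l i * (det L i j * p.2)) := by
          linear_combination (-(det L j l * det L l i * det L i j)) * hab
        rw [this]
        exact dvd_add (Dvd.dvd.mul_left g3 _) (Dvd.dvd.mul_left g4 _)
      have g6 : g ∣ (det L j l * det L l i * det L i j).natAbs := by
        have := Int.natAbs_dvd_natAbs.2 g5
        rwa [Int.natAbs_natCast] at this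
      exact (Nat.le_of_dvd (Nat.pos_of_ne_zero (Int.natAbs_ne_zero.2
        (mul_ne_zero (mul_ne_zero djl dli) dij))) g6).trans (hΔ1 i j l)
    · -- height
      show Δ * zr (det L j l * val L i p * (det L l i * val L j p) *
          (det L j l * val L i p + det L l i * val L j p)) ^ M₀ ≤
        max (det L j l * val L i p).natAbs (det L l i * val L j p).natAbs
      set r := zr (∏ i, val L i p) with hr
      set S := zr (det L j l * val L i p * (det L l i * val L j p) *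
          (det L j l * val L i p + det L l i * val L j p)) with hS
      have m1 : max (val L i p).natAbs (val L j p).natAbs ≤
          max (det L j l * val L i p).natAbs (det L l i * val L j p).natAbs := by
        rw [Int.natAbs_mul, Int.natAbs_mul]
        exact max_le_max (Nat.le_mul_of_pos_left _ (Nat.pos_of_ne_zero (Int.natAbs_ne_zero.2 djl)))
          (Nat.le_mul_of_pos_left _ (Nat.pos_of_ne_zero (Int.natAbs_ne_zero.2 dli)))
      have m2 := max_le_of_coords L i j dij (hΔ3 i) (hΔ3 j) p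
      have m3 : 2 * Δ * (Δ * S ^ M₀) ≤ 2 * Δ *
          max (det L j l * val L i p).natAbs (det L l i * val L j p).natAbs :=
        calc 2 * Δ * (Δ * S ^ M₀) ≤ 2 * Δ * (Δ * (Δ * r) ^ M₀) :=
              Nat.mul_le_mul_left _ (Nat.mul_le_mul_left _ (Nat.pow_le_pow_left hrad _))
          _ = 2 * Δ ^ (M₀ + 2) * r ^ M₀ := by ring
          _ ≤ 2 ^ E * r ^ M₀ := Nat.mul_le_mul_right _ hE
          _ ≤ r ^ E * r ^ M₀ := Nat.mul_le_mul_right _ (Nat.pow_le_pow_left p4 _)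
          _ = r ^ (M₀ + E) := by ring
          _ ≤ max p.1.natAbs p.2.natAbs := p5
          _ ≤ 2 * Δ * max (val L i p).natAbs (val L j p).natAbs := m2
          _ ≤ _ := Nat.mul_le_mul_left _ m1
      exact Nat.le_of_mul_le_mul_left m3 (by omega)
    · refine (zn_mul_le djl (vne i)).trans ?_
      have h9 : zn K (det L j l) = 1 := nr_eq_one (hK j l hlj.symm)
      rw [h9, one_mul]
      exact p7
    · refine (zn_mul_le dli (vne j)).trans ?_
      have h9 : zn K (det L l i) = 1 := nr_eq_one (hK l i hli)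
      rw [h9, one_mul]
      exact p8)
  rw [Finset.card_image_of_injective _ hinj] at h1
  refine h1.trans (le_of_eq ?_)
  have hX0 : (0 : ℝ) ≤ X := Nat.cast_nonneg _
  have e1 : (((Δ * X : ℕ) : ℝ)) ^ ε = (Δ : ℝ) ^ ε * (X : ℝ) ^ ε := by
    rw [Nat.cast_mul, Real.mul_rpow (Nat.cast_nonneg _) hX0]
  rw [e1]
  ring


lemma zn_le_zr (K : Finset ℕ) (n : ℤ) : zn K n ≤ zr n := by
  unfold zn nr zr rad
  apply Finset.prod_le_prod_of_subset_of_one_le' sdiff_subset
  intro p hp _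
  exact (Nat.prime_of_mem_primeFactors hp).one_lt.le

/-- **products of linear forms, few primes outside of a finite set `K`** -/
theorem formsW (k : ℕ) (hk : 3 ≤ k) (L : Fin k → ℤ × ℤ) (hL : ∀ i j, i ≠ j → det L i j ≠ 0)
    (ε : ℝ) (hε : 0 < ε) : ∃ M m : ℕ, ∃ C : ℝ, 1 ≤ M ∧ 0 < C ∧ ∀ X Z : ℕ, 1 ≤ X → 1 ≤ Z →
    ∀ (K : Finset ℕ), (∀ i j, i ≠ j → (det L i j).natAbs.primeFactors ⊆ K) → ∀ Q : Finset (ℤ × ℤ),
    (∀ p ∈ Q, IsCoprime p.1 p.2 ∧ ∏ i, val L i p ≠ 0 ∧ zr (∏ i, val L i p) ≤ X ∧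
      zr (∏ i, val L i p) ^ M ≤ max p.1.natAbs p.2.natAbs ∧ zn K (∏ i, val L i p) ≤ Z) →
    (Q.card : ℝ) ≤ C * (2 ^ K.card) ^ m * (X : ℝ) ^ ε * (Z : ℝ) ^ (1 / (k : ℝ)) := by
  classical
  obtain ⟨M, m, C₀, hM, hC₀, h0⟩ := one_boxW k hk L hL (ε / 2) (by positivity)
  obtain ⟨C₁, hC₁, hlog⟩ := log_bound (ε / 4) (by positivity)
  have hk0 : (0 : ℝ) < k := by have : 0 < k := by omega
                               exact_mod_cast this
  have hk1 : (1 : ℝ) ≤ k := by have : 1 ≤ k := by omega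
                               exact_mod_cast this
  refine ⟨M, m, 4 + (k : ℝ) ^ 2 * C₁ ^ 2 * (C₀ * 2), hM, by positivity, ?_⟩
  intro X Z hX hZ K hK Q hQ
  obtain ⟨G, hG⟩ : ∃ G : ℝ, G = 2 ^ K.card := ⟨_, rfl⟩
  rw [← hG]
  have hG1 : 1 ≤ G := by rw [hG]; exact one_le_pow₀ (by norm_num)
  have hZ1 : (1 : ℝ) ≤ Z := by exact_mod_cast hZ
  have hX1 : (1 : ℝ) ≤ X := by exact_mod_cast hX
  have hX0 : (0 : ℝ) < X := by linarith
  have vne : ∀ p ∈ Q, ∀ i, val L i p ≠ 0 := fun p hp i =>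
    (Finset.prod_ne_zero_iff.1 (hQ p hp).2.1) i (Finset.mem_univ _)
  -- the pairs with radical one
  set Q₁ := Q.filter (fun p => zr (∏ i, val L i p) = 1) with hQ₁
  set Q₂ := Q.filter (fun p => ¬ zr (∏ i, val L i p) = 1) with hQ₂
  have hsplit : Q.card = Q₁.card + Q₂.card := (Finset.card_filter_add_card_filter_not _).symm
  have b1 : Q₁.card ≤ 4 := by
    set i0 : Fin k := ⟨0, by omega⟩
    set i1 : Fin k := ⟨1, by omega⟩
    have hne : i0 ≠ i1 := by
      intro h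
      have := congrArg Fin.val h
      simp [i0, i1] at this
    have hd := hL i0 i1 hne
    have : Q₁.card ≤ (({1, -1} : Finset ℤ) ×ˢ ({1, -1} : Finset ℤ)).card := by
      apply Finset.card_le_card_of_injOn (fun p => (val L i0 p, val L i1 p))
      · intro p hp
        rw [Finset.mem_coe, hQ₁, Finset.mem_filter] at hp
        obtain ⟨hp1, hp2⟩ := hp
        have hpr := (hQ p hp1).2.1
        have hu : ∀ i, val L i p = 1 ∨ val L i p = -1 := by
          intro i
          apply natAbs_eq_one_of_zr (vne p hp1 i)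
          have h1 : zr (val L i p) ≤ zr (∏ i, val L i p) :=
            zr_le_of_dvd hpr (Finset.dvd_prod_of_mem _ (Finset.mem_univ _))
          have h2 := zr_pos (val L i p)
          omega
        simp only [Finset.coe_product, Set.mem_prod, Finset.mem_coe, Finset.mem_insert,
          Finset.mem_singleton]
        exact ⟨hu i0, hu i1⟩
      · intro p _ q _ hpq
        simp only [Prod.mk.injEq] at hpq
        have e3 : p.1 = q.1 := mul_left_cancel₀ hd (by rw [cramer1, cramer1, hpq.1, hpq.2])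
        have e4 : p.2 = q.2 := mul_left_cancel₀ hd (by rw [cramer2, cramer2, hpq.1, hpq.2])
        exact Prod.ext e3 e4
    refine this.trans ?_
    rw [Finset.card_product]
    simp
  -- the boxes
  set N := Nat.log 2 X + 2 with hN
  set box : Fin k × Fin k × ℕ × ℕ → Finset (ℤ × ℤ) := fun t =>
    Q₂.filter (fun p => t.1 ≠ t.2.1 ∧ zn K (val L t.1 p) ≤ 2 ^ t.2.2.1 ∧
      zn K (val L t.2.1 p) ≤ 2 ^ t.2.2.2 ∧
      (2 ^ (t.2.2.1 + t.2.2.2)) ^ k ≤ 4 ^ k * Z ^ 2) with hbox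
  have hcover : Q₂ ⊆ ((Finset.univ : Finset (Fin k)) ×ˢ (Finset.univ : Finset (Fin k)) ×ˢ
      (Finset.range N) ×ˢ (Finset.range N)).biUnion box := by
    intro p hp
    have hp' := hp
    rw [hQ₂, Finset.mem_filter] at hp'
    obtain ⟨hpQ, hp1⟩ := hp'
    obtain ⟨p1, p2, p3, p4, p5⟩ := hQ p hpQ
    have hprod2 : ∏ i, zn K (val L i p) ≤ Z := by
      rw [prod_zn hK hL p1 (vne p hpQ)]
      exact p5
    obtain ⟨i, j, hij, hrr⟩ := exists_pair (by omega) (fun i => zn K (val L i p))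
      (fun i => zn_pos _ _) Z hprod2
    obtain ⟨s, s1, s2, s3⟩ := dyadic (zn_pos K (val L i p))
    obtain ⟨t, t1, t2, t3⟩ := dyadic (zn_pos K (val L j p))
    have hle : ∀ i, zn K (val L i p) ≤ X := fun i =>
      (zn_le_zr K _).trans ((zr_le_of_dvd p2 (Finset.dvd_prod_of_mem _ (Finset.mem_univ _))).trans p3)
    have hlogle : ∀ i, Nat.log 2 (zn K (val L i p)) + 1 < N := by
      intro i
      have := Nat.log_mono_right (b := 2) (hle i)
      omega
    rw [Finset.mem_biUnion]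
    refine ⟨(i, j, s, t), ?_, ?_⟩
    · simp only [Finset.mem_product, Finset.mem_univ, Finset.mem_range, true_and]
      rw [s3, t3]
      exact ⟨hlogle i, hlogle j⟩
    · rw [hbox]
      refine Finset.mem_filter.2 ⟨hp, hij, s1, t1, ?_⟩
      show (2 ^ (s + t)) ^ k ≤ 4 ^ k * Z ^ 2
      calc (2 ^ (s + t)) ^ k = (2 ^ s * 2 ^ t) ^ k := by rw [pow_add]
        _ ≤ ((2 * zn K (val L i p)) * (2 * zn K (val L j p))) ^ k :=
            Nat.pow_le_pow_left (Nat.mul_le_mul s2 t2) _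
        _ = 4 ^ k * (zn K (val L i p) * zn K (val L j p)) ^ k := by rw [← mul_pow]; ring
        _ ≤ 4 ^ k * Z ^ 2 := Nat.mul_le_mul_left _ hrr
  have hB : ∀ t ∈ ((Finset.univ : Finset (Fin k)) ×ˢ (Finset.univ : Finset (Fin k)) ×ˢ
      (Finset.range N) ×ˢ (Finset.range N)), ((box t).card : ℝ) ≤
      C₀ * G ^ m * (X : ℝ) ^ (ε / 2) * (2 * (Z : ℝ) ^ (1 / (k : ℝ))) := by
    rintro ⟨i, j, s, t⟩ -
    rcases (box (i, j, s, t)).eq_empty_or_nonempty with h | ⟨p0, hp0⟩
    · rw [h, Finset.card_empty, Nat.cast_zero]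
      have : 0 ≤ G := by linarith
      positivity
    rw [hbox] at hp0
    obtain ⟨-, hij, -, -, hst⟩ := Finset.mem_filter.1 hp0
    have h1 := h0 X (2 ^ s) (2 ^ t) hX Nat.one_le_two_pow Nat.one_le_two_pow K hK i j hij
      (box (i, j, s, t)) (by
      intro p hp
      rw [hbox] at hp
      obtain ⟨hp2, -, q1, q2, -⟩ := Finset.mem_filter.1 hp
      rw [hQ₂, Finset.mem_filter] at hp2
      obtain ⟨p1, p2, p3, p4, p5⟩ := hQ p hp2.1
      refine ⟨p1, p2, p3, ?_, p4, q1, q2⟩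
      have := zr_pos (∏ i, val L i p)
      have := hp2.2
      omega)
    rw [← hG] at h1
    refine h1.trans ?_
    have hG0 : 0 ≤ G := by linarith
    apply mul_le_mul_of_nonneg_left _ (by positivity)
    -- the size of the box
    have hx : (((2 ^ s : ℕ) : ℝ) * ((2 ^ t : ℕ) : ℝ)) ≤ 4 * (Z : ℝ) ^ ((2 : ℝ) / k) := by
      have h2 : ((((2 ^ s : ℕ) : ℝ) * ((2 ^ t : ℕ) : ℝ))) ^ k ≤
          (4 * (Z : ℝ) ^ ((2 : ℝ) / k)) ^ k := by
        rw [mul_pow, mul_pow 4, ← Real.rpow_natCast ((Z : ℝ) ^ ((2 : ℝ) / k)),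
          ← Real.rpow_mul (by positivity), div_mul_cancel₀ _ hk0.ne']
        have h3 : (((2 ^ (s + t)) ^ k : ℕ) : ℝ) ≤ ((4 ^ k * Z ^ 2 : ℕ) : ℝ) := by
          exact_mod_cast hst
        push_cast at h3 ⊢
        rw [show (2 : ℝ) ^ s = 2 ^ s from rfl, ← mul_pow, ← pow_add]
        refine h3.trans (le_of_eq ?_)
        rw [show (Z : ℝ) ^ (2 : ℝ) = (Z : ℝ) ^ (2 : ℕ) from by
          rw [← Real.rpow_natCast]; norm_num]
      exact le_of_pow_le_pow_left₀ (by omega) (by positivity) h2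
    have h5 : Real.sqrt ((((2 ^ s : ℕ) : ℝ) * ((2 ^ t : ℕ) : ℝ))) ≤ 2 * (Z : ℝ) ^ (1 / (k : ℝ)) := by
      have h6 : (((2 ^ s : ℕ) : ℝ) * ((2 ^ t : ℕ) : ℝ)) ≤ (2 * (Z : ℝ) ^ (1 / (k : ℝ))) ^ 2 := by
        calc (((2 ^ s : ℕ) : ℝ) * ((2 ^ t : ℕ) : ℝ)) ≤ 4 * (Z : ℝ) ^ ((2 : ℝ) / k) := hx
          _ = (2 * (Z : ℝ) ^ (1 / (k : ℝ))) ^ 2 := by
              rw [mul_pow, ← Real.rpow_natCast ((Z : ℝ) ^ (1 / (k : ℝ))),
                ← Real.rpow_mul (by positivity)]
              congr 1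
              · norm_num
              · congr 1
                push_cast
                ring
      calc Real.sqrt ((((2 ^ s : ℕ) : ℝ) * ((2 ^ t : ℕ) : ℝ)))
          ≤ Real.sqrt ((2 * (Z : ℝ) ^ (1 / (k : ℝ))) ^ 2) := Real.sqrt_le_sqrt h6
        _ = 2 * (Z : ℝ) ^ (1 / (k : ℝ)) := Real.sqrt_sq (by positivity)
    exact h5
  have hG0 : 0 ≤ G := by linarith
  obtain ⟨W, hW⟩ : ∃ W, W = (Z : ℝ) ^ (1 / (k : ℝ)) := ⟨_, rfl⟩
  rw [← hW] at hB ⊢
  have hW1 : 1 ≤ W := by rw [hW]; exact Real.one_le_rpow hZ1 (by positivity)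
  have b2 : (Q₂.card : ℝ) ≤ (k : ℝ) ^ 2 * (N : ℝ) ^ 2 *
      (C₀ * G ^ m * (X : ℝ) ^ (ε / 2) * (2 * W)) := by
    calc (Q₂.card : ℝ) ≤ ((((Finset.univ : Finset (Fin k)) ×ˢ (Finset.univ : Finset (Fin k)) ×ˢ
          (Finset.range N) ×ˢ (Finset.range N)).biUnion box).card : ℝ) := by
          exact_mod_cast Finset.card_le_card hcover
      _ ≤ ∑ t ∈ ((Finset.univ : Finset (Fin k)) ×ˢ (Finset.univ : Finset (Fin k)) ×ˢ
          (Finset.range N) ×ˢ (Finset.range N)), ((box t).card : ℝ) := by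
          exact_mod_cast Finset.card_biUnion_le
      _ ≤ ∑ _t ∈ ((Finset.univ : Finset (Fin k)) ×ˢ (Finset.univ : Finset (Fin k)) ×ˢ
          (Finset.range N) ×ˢ (Finset.range N)),
          (C₀ * G ^ m * (X : ℝ) ^ (ε / 2) * (2 * W)) := Finset.sum_le_sum hB
      _ = _ := by
          rw [Finset.sum_const, nsmul_eq_mul, Finset.card_product, Finset.card_product,
            Finset.card_product, Finset.card_range, Finset.card_univ, Fintype.card_fin]
          push_cast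
          ring
  have hNle : (N : ℝ) ≤ C₁ * (X : ℝ) ^ (ε / 4) := hlog X hX
  have hNN : (N : ℝ) ^ 2 ≤ C₁ ^ 2 * (X : ℝ) ^ (ε / 2) := by
    calc (N : ℝ) ^ 2 ≤ (C₁ * (X : ℝ) ^ (ε / 4)) ^ 2 := pow_le_pow_left₀ (Nat.cast_nonneg _) hNle 2
      _ = C₁ ^ 2 * (X : ℝ) ^ (ε / 2) := by
        rw [mul_pow, ← Real.rpow_natCast ((X : ℝ) ^ (ε / 4)), ← Real.rpow_mul hX0.le]
        congr 2
        push_cast; ring
  have hXp : (1 : ℝ) ≤ (X : ℝ) ^ ε := Real.one_le_rpow hX1 (by positivity)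
  have hGm : (1 : ℝ) ≤ G ^ m := one_le_pow₀ hG1
  have hfin : (k : ℝ) ^ 2 * (N : ℝ) ^ 2 *
      (C₀ * G ^ m * (X : ℝ) ^ (ε / 2) * (2 * W)) ≤
      (k : ℝ) ^ 2 * C₁ ^ 2 * (C₀ * 2) * G ^ m * (X : ℝ) ^ ε * W := by
    calc (k : ℝ) ^ 2 * (N : ℝ) ^ 2 *
      (C₀ * G ^ m * (X : ℝ) ^ (ε / 2) * (2 * W))
        ≤ (k : ℝ) ^ 2 * (C₁ ^ 2 * (X : ℝ) ^ (ε / 2)) *
      (C₀ * G ^ m * (X : ℝ) ^ (ε / 2) * (2 * W)) := by
          apply mul_le_mul_of_nonneg_right _ (by positivity)
          exact mul_le_mul_of_nonneg_left hNN (by positivity)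
      _ = (k : ℝ) ^ 2 * C₁ ^ 2 * (C₀ * 2) * G ^ m *
          ((X : ℝ) ^ (ε / 2) * (X : ℝ) ^ (ε / 2)) * W := by ring
      _ = (k : ℝ) ^ 2 * C₁ ^ 2 * (C₀ * 2) * G ^ m * (X : ℝ) ^ ε * W := by
          rw [← Real.rpow_add hX0]
          congr 3
          ring
  have b1' : (Q₁.card : ℝ) ≤ 4 * G ^ m * (X : ℝ) ^ ε * W := by
    have h4 : (Q₁.card : ℝ) ≤ 4 := by exact_mod_cast b1
    have h5 : 1 ≤ G ^ m * (X : ℝ) ^ ε * W := one_le_mul_of_one_le_of_one_le
      (one_le_mul_of_one_le_of_one_le hGm hXp) hW1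
    calc (Q₁.card : ℝ) ≤ 4 * 1 := by linarith
      _ ≤ 4 * (G ^ m * (X : ℝ) ^ ε * W) := mul_le_mul_of_nonneg_left h5 (by norm_num)
      _ = _ := by ring
  calc (Q.card : ℝ) = (Q₁.card : ℝ) + (Q₂.card : ℝ) := by exact_mod_cast hsplit
    _ ≤ 4 * G ^ m * (X : ℝ) ^ ε * W +
        (k : ℝ) ^ 2 * C₁ ^ 2 * (C₀ * 2) * G ^ m * (X : ℝ) ^ ε * W :=
        add_le_add b1' (b2.trans hfin)
    _ = _ := by ring


end Pool.Agent.H583.WT
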