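import Pool.Agent.H583.WT.E
import Pool.Agent.H583.SF.Main

/-!
Weights for which the primes of a finite set `K` cost nothing: pairs of integers, products of linear
forms.
-/

set_option autoImplicit false

namespace Pool.Agent.H583.WT

open Finset Pool.Agent.T2H20.ABC Pool.Agent.T2H20.AH Pool.Agent.H785R2.ABC Pool.Agent.H583.SF

/-- the product of the primes outside `K` dividing `n` -/
def nr (K : Finset ℕ) (n : ℕ) : ℕ := ∏ p ∈ n.primeFactors \ K, p

/-- the product of the primes outside `K` dividing the integer `n` -/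
def zn (K : Finset ℕ) (n : ℤ) : ℕ := nr K n.natAbs

/-- the weights -/
noncomputable def om (K : Finset ℕ) (p : ℕ) : ℝ := if p ∈ K then 1 else p

lemma nr_pos (K : Finset ℕ) (n : ℕ) : 0 < nr K n :=
  Finset.prod_pos fun _ hp => (Nat.prime_of_mem_primeFactors (mem_sdiff.1 hp).1).pos

lemma zn_pos (K : Finset ℕ) (n : ℤ) : 0 < zn K n := nr_pos K _

lemma nr_dvd_of_dvd {K : Finset ℕ} {m n : ℕ} (hn : n ≠ 0) (h : m ∣ n) : nr K m ∣ nr K n :=
  Finset.prod_dvd_prod_of_subset _ _ _ (sdiff_subset_sdiff (Nat.primeFactors_mono h hn) subset_rfl)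

lemma nr_le_of_dvd {K : Finset ℕ} {m n : ℕ} (hn : n ≠ 0) (h : m ∣ n) : nr K m ≤ nr K n :=
  Nat.le_of_dvd (nr_pos K n) (nr_dvd_of_dvd hn h)

lemma zn_le_of_dvd {K : Finset ℕ} {m n : ℤ} (hn : n ≠ 0) (h : m ∣ n) : zn K m ≤ zn K n :=
  nr_le_of_dvd (Int.natAbs_ne_zero.2 hn) (Int.natAbs_dvd_natAbs.2 h)

lemma nr_mul_le {K : Finset ℕ} {a b : ℕ} (ha : a ≠ 0) (hb : b ≠ 0) :
    nr K (a * b) ≤ nr K a * nr K b := by
  classical
  unfold nr
  rw [Nat.primeFactors_mul ha hb, union_sdiff_distrib, ← Finset.prod_union_inter]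
  apply Nat.le_mul_of_pos_right
  exact Finset.prod_pos fun p hp =>
    (Nat.prime_of_mem_primeFactors (mem_sdiff.1 (mem_inter.1 hp).1).1).pos

lemma nr_eq_one {K : Finset ℕ} {a : ℕ} (h : a.primeFactors ⊆ K) : nr K a = 1 := by
  unfold nr
  rw [sdiff_eq_empty_iff_subset.2 h, prod_empty]

lemma zn_mul_le {K : Finset ℕ} {a b : ℤ} (ha : a ≠ 0) (hb : b ≠ 0) :
    zn K (a * b) ≤ zn K a * zn K b := by
  unfold zn
  rw [Int.natAbs_mul]
  exact nr_mul_le (Int.natAbs_ne_zero.2 ha) (Int.natAbs_ne_zero.2 hb)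

lemma wt_om (K : Finset ℕ) (n : ℕ) : wt (om K) n = nr K n := by
  classical
  unfold wt nr om
  push_cast
  rw [← Finset.prod_sdiff (s₁ := n.primeFactors ∩ K) (s₂ := n.primeFactors) inter_subset_left]
  have h1 : ∏ p ∈ n.primeFactors ∩ K, (if p ∈ K then (1 : ℝ) else p) = 1 :=
    Finset.prod_eq_one fun p hp => if_pos (mem_inter.1 hp).2
  rw [h1, mul_one, sdiff_inter_self_left]
  exact Finset.prod_congr rfl fun p hp => if_neg (mem_sdiff.1 hp).2

/-- the weights satisfy the axioms -/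
theorem wml_om (K : Finset ℕ) : Wml (om K) (fun _ => True) (2 ^ K.card) := by
  classical
  refine ⟨fun _ _ _ _ => trivial, one_le_pow₀ (by norm_num), ?_, ?_, ?_⟩
  · intro p hp
    unfold om
    split_ifs
    · exact le_rfl
    · exact_mod_cast hp.one_lt.le
  · intro p hp
    unfold om
    split_ifs
    · exact_mod_cast hp.one_lt.le
    · exact le_rfl
  · intro Y S hY hS
    have hsub : S.card ≤ (K.powerset ×ˢ Icc 1 ⌊Y⌋₊).card := by
      apply card_le_card_of_injOn (fun s => (s.primeFactors ∩ K, nr K s))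
      · intro s hs
        rw [mem_coe, mem_product, mem_powerset, mem_Icc]
        refine ⟨inter_subset_right, nr_pos K s, Nat.le_floor ?_⟩
        have := (hS s (mem_coe.1 hs)).2.2
        rwa [wt_om] at this
      · intro s hs t ht h
        simp only [Prod.mk.injEq] at h
        have key : ∀ u : ℕ, Squarefree u → u = (∏ p ∈ u.primeFactors ∩ K, p) * nr K u := by
          intro u hu
          unfold nr
          conv_lhs => rw [← Nat.prod_primeFactors_of_squarefree hu]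
          rw [← Finset.prod_sdiff (s₁ := u.primeFactors ∩ K) (s₂ := u.primeFactors)
            inter_subset_left, sdiff_inter_self_left, mul_comm]
        rw [key s (hS s (mem_coe.1 hs)).1, key t (hS t (mem_coe.1 ht)).1, h.1, h.2]
    rw [card_product, card_powerset, Nat.card_Icc, Nat.add_sub_cancel] at hsub
    have h2 : (⌊Y⌋₊ : ℝ) ≤ Y := Nat.floor_le (by linarith)
    calc (S.card : ℝ) ≤ ((2 ^ K.card * ⌊Y⌋₊ : ℕ) : ℝ) := by exact_mod_cast hsub
      _ = 2 ^ K.card * (⌊Y⌋₊ : ℝ) := by push_cast; ring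
      _ ≤ 2 ^ K.card * Y := mul_le_mul_of_nonneg_left h2 (by positivity)

/-- **pairs of integers with bounded greatest common divisor** -/
theorem pairsW (ε : ℝ) (hε : 0 < ε) : ∃ M m : ℕ, ∃ C : ℝ, 1 ≤ M ∧ 0 < C ∧
    ∀ X R₁ R₂ D : ℕ, 1 ≤ X → 1 ≤ R₁ → 1 ≤ R₂ → 1 ≤ D → ∀ (K : Finset ℕ), ∀ Q : Finset (ℤ × ℤ),
    (∀ p ∈ Q, p.1 ≠ 0 ∧ p.2 ≠ 0 ∧ p.1 + p.2 ≠ 0 ∧ Int.gcd p.1 p.2 ≤ D ∧
      zr (p.1 * p.2 * (p.1 + p.2)) ≤ X ∧
      D * zr (p.1 * p.2 * (p.1 + p.2)) ^ M ≤ max p.1.natAbs p.2.natAbs ∧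
      zn K p.1 ≤ R₁ ∧ zn K p.2 ≤ R₂) →
    (Q.card : ℝ) ≤ C * (D + 1) * (2 ^ K.card) ^ m * (X : ℝ) ^ ε * Real.sqrt ((R₁ : ℝ) * R₂) := by
  classical
  obtain ⟨M, m, C, hM, hC, h⟩ := exceptionsW ε hε
  refine ⟨M, 2 * m, 6 * C, hM, by positivity, ?_⟩
  intro X R₁ R₂ D hX hR₁ hR₂ hD K Q hQ
  -- the coded triples
  have key : ∀ p ∈ Q, ∃ (q : ℕ × ℕ) (g : ℕ) (c : Fin 3) (s : Bool), g ≤ D ∧ dec (q, g, c, s) = p ∧
      (0 < q.1 ∧ 0 < q.2 ∧ Nat.Coprime q.1 q.2 ∧ rad (q.1 * q.2 * (q.1 + q.2)) ≤ X ∧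
      (∃ i j, i ≠ j ∧ (wt (om K) (num (tri q) i) ≤ R₁ ∧ wt (om K) (num (tri q) j) ≤ R₂) ∧
        ((fun _ => True) (rad (num (tri q) i)) ∧ (fun _ => True) (rad (num (tri q) j)))) ∧
      rad (q.1 * q.2 * (q.1 + q.2)) ^ M ≤ q.1 + q.2) := by
    intro p hp
    obtain ⟨h1, h2, h3, h4, h5, h6, h7, h8⟩ := hQ p hp
    obtain ⟨g, hg⟩ : ∃ g, g = Int.gcd p.1 p.2 := ⟨_, rfl⟩
    have hg0 : 0 < g := by rw [hg]; exact Int.gcd_pos_of_ne_zero_left _ h1
    obtain ⟨x, hx⟩ : (g : ℤ) ∣ p.1 := by rw [hg]; exact Int.gcd_dvd_left _ _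
    obtain ⟨y, hy⟩ : (g : ℤ) ∣ p.2 := by rw [hg]; exact Int.gcd_dvd_right _ _
    have hcop : IsCoprime x y := by
      rw [Int.isCoprime_iff_gcd_eq_one]
      have : g * Int.gcd x y = g * 1 := by
        rw [mul_one]
        conv_rhs => rw [hg, hx, hy, Int.gcd_mul_left, Int.natAbs_natCast]
      exact Nat.eq_of_mul_eq_mul_left hg0 this
    have hx0 : x ≠ 0 := by rintro rfl; exact h1 (by rw [hx, mul_zero])
    have hy0 : y ≠ 0 := by rintro rfl; exact h2 (by rw [hy, mul_zero])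
    have hxy : x + y ≠ 0 := by
      intro h0
      apply h3
      rw [hx, hy, ← mul_add, h0, mul_zero]
    obtain ⟨q, c, s, q1, q2, q3, q4, ⟨i, j, hij, q5, q6⟩, q7, q8⟩ := code_exists hx0 hy0 hxy hcop
    have hne : p.1 * p.2 * (p.1 + p.2) ≠ 0 := mul_ne_zero (mul_ne_zero h1 h2) h3
    have hdvd : x * y * (x + y) ∣ p.1 * p.2 * (p.1 + p.2) := by
      refine ⟨(g : ℤ) ^ 3, ?_⟩
      rw [hx, hy]; ring
    have hr : zr (x * y * (x + y)) ≤ zr (p.1 * p.2 * (p.1 + p.2)) := zr_le_of_dvd hne hdvd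
    have wr : ∀ (a : ℕ) (z : ℤ), rad a = zr z → wt (om K) a = zn K z := by
      intro a z haz
      unfold zr at haz
      rw [← wt_rad, haz, wt_rad, wt_om]
      rfl
    refine ⟨q, g, c, s, by rw [hg]; exact h4, ?_, q1, q2, q3, by rw [q4]; exact hr.trans h5,
      ⟨i, j, hij, ⟨?_, ?_⟩, trivial, trivial⟩, ?_⟩
    · rw [q8 g, ← hx, ← hy]
    · rw [wr _ _ q5]
      have := (zn_le_of_dvd (K := K) h1 ⟨g, by rw [hx]; ring⟩ : zn K x ≤ zn K p.1).trans h7
      exact_mod_cast this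
    · rw [wr _ _ q6]
      have := (zn_le_of_dvd (K := K) h2 ⟨g, by rw [hy]; ring⟩ : zn K y ≤ zn K p.2).trans h8
      exact_mod_cast this
    · rw [q4]
      have e1 : max p.1.natAbs p.2.natAbs = g * max x.natAbs y.natAbs := by
        rw [hx, hy, Int.natAbs_mul, Int.natAbs_mul, Int.natAbs_natCast]
        exact (Nat.mul_max_mul_left _ _ _)
      have e2 : D * zr (x * y * (x + y)) ^ M ≤ D * max x.natAbs y.natAbs :=
        calc D * zr (x * y * (x + y)) ^ M ≤ D * zr (p.1 * p.2 * (p.1 + p.2)) ^ M :=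
              Nat.mul_le_mul_left _ (Nat.pow_le_pow_left hr _)
          _ ≤ max p.1.natAbs p.2.natAbs := h6
          _ = g * max x.natAbs y.natAbs := e1
          _ ≤ D * max x.natAbs y.natAbs := Nat.mul_le_mul_right _ (by rw [hg]; exact h4)
      exact (Nat.le_of_mul_le_mul_left e2 (by omega)).trans q7
  choose! fq fg fc fs k1 k2 k3 using key
  have h1 := h X hX (om K) (om K) (fun _ => True) (fun _ => True) _ _ R₁ R₂ (wml_om K) (wml_om K)
    (by exact_mod_cast hR₁) (by exact_mod_cast hR₂) (Q.image fq) (by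
    intro q hq
    obtain ⟨p, hp, rfl⟩ := Finset.mem_image.1 hq
    exact k3 p hp)
  have h2 : Q ⊆ ((Q.image fq) ×ˢ (Finset.range (D + 1)) ×ˢ (Finset.univ : Finset (Fin 3)) ×ˢ
      (Finset.univ : Finset Bool)).image dec := by
    intro p hp
    refine Finset.mem_image.2 ⟨(fq p, fg p, fc p, fs p), ?_, k2 p hp⟩
    simp only [Finset.mem_product, Finset.mem_range, Finset.mem_univ, and_true]
    exact ⟨Finset.mem_image_of_mem _ hp, by have := k1 p hp; omega⟩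
  have h3 : Q.card ≤ (Q.image fq).card * ((D + 1) * (3 * 2)) := by
    refine (Finset.card_le_card h2).trans (Finset.card_image_le.trans ?_)
    rw [Finset.card_product, Finset.card_product, Finset.card_product, Finset.card_range,
      Finset.card_univ, Finset.card_univ, Fintype.card_fin, Fintype.card_bool]
  have h4 : (Q.card : ℝ) ≤ ((Q.image fq).card : ℝ) * (((D : ℝ) + 1) * 6) := by
    have : (Q.card : ℝ) ≤ (((Q.image fq).card * ((D + 1) * (3 * 2)) : ℕ) : ℝ) := by exact_mod_cast h3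
    refine this.trans (le_of_eq ?_)
    push_cast; ring
  have h5 : ((2 : ℝ) ^ K.card * 2 ^ K.card) ^ m = (2 ^ K.card) ^ (2 * m) := by
    rw [← sq, ← pow_mul]
  calc (Q.card : ℝ) ≤ ((Q.image fq).card : ℝ) * (((D : ℝ) + 1) * 6) := h4
    _ ≤ (C * (2 ^ K.card * 2 ^ K.card) ^ m * (X : ℝ) ^ ε * Real.sqrt ((R₁ : ℝ) * R₂)) *
        (((D : ℝ) + 1) * 6) := mul_le_mul_of_nonneg_right h1 (by positivity)
    _ = 6 * C * (D + 1) * (2 ^ K.card) ^ (2 * m) * (X : ℝ) ^ ε * Real.sqrt ((R₁ : ℝ) * R₂) := by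
        rw [h5]; ring

/-- the primes outside `K` dividing the values of two of the forms are different -/
lemma disjoint_val {k : ℕ} {L : Fin k → ℤ × ℤ} {K : Finset ℕ}
    (hK : ∀ i j, i ≠ j → (det L i j).natAbs.primeFactors ⊆ K) (hL : ∀ i j, i ≠ j → det L i j ≠ 0)
    {p : ℤ × ℤ} (hp : IsCoprime p.1 p.2) {i j : Fin k} (hij : i ≠ j) :
    Disjoint ((val L i p).natAbs.primeFactors \ K) ((val L j p).natAbs.primeFactors \ K) := by
  rw [Finset.disjoint_left]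
  intro q hq hq'
  rw [mem_sdiff] at hq hq'
  apply hq.2
  apply hK i j hij
  have hqp := Nat.prime_of_mem_primeFactors hq.1
  refine Nat.mem_primeFactors.2 ⟨hqp, ?_, Int.natAbs_ne_zero.2 (hL i j hij)⟩
  have h1 : q ∣ Int.gcd (val L i p) (val L j p) :=
    Nat.dvd_gcd (Nat.dvd_of_mem_primeFactors hq.1) (Nat.dvd_of_mem_primeFactors hq'.1)
  have h2 := gcd_dvd_det L i j hp
  have h3 : Int.gcd (val L i p) (val L j p) ∣ (det L i j).natAbs := by
    have := Int.natAbs_dvd_natAbs.2 h2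
    rwa [Int.natAbs_natCast] at this
  exact h1.trans h3

/-- the product of the new parts of the values of the forms -/
lemma prod_zn {k : ℕ} {L : Fin k → ℤ × ℤ} {K : Finset ℕ}
    (hK : ∀ i j, i ≠ j → (det L i j).natAbs.primeFactors ⊆ K) (hL : ∀ i j, i ≠ j → det L i j ≠ 0)
    {p : ℤ × ℤ} (hp : IsCoprime p.1 p.2) (hne : ∀ i, val L i p ≠ 0) :
    ∏ i, zn K (val L i p) = zn K (∏ i, val L i p) := by
  classical
  unfold zn nr
  rw [← Finset.prod_biUnion (fun a _ b _ hab => disjoint_val hK hL hp hab)]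
  congr 1
  ext q
  simp only [mem_biUnion, mem_univ, true_and, mem_sdiff]
  have e : (∏ i, val L i p).natAbs = ∏ i, (val L i p).natAbs := by
    rw [← Int.natAbsHom_apply, map_prod]; rfl
  rw [e]
  have h0 : ∏ i, (val L i p).natAbs ≠ 0 :=
    Finset.prod_ne_zero_iff.2 fun i _ => Int.natAbs_ne_zero.2 (hne i)
  constructor
  · rintro ⟨a, h1, h2⟩
    refine ⟨Nat.primeFactors_mono (Finset.dvd_prod_of_mem _ (mem_univ a)) h0 h1, h2⟩
  · rintro ⟨h1, h2⟩
    have hq := Nat.prime_of_mem_primeFactors h1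
    obtain ⟨a, -, ha⟩ := (hq.prime.dvd_finsetProd_iff _).1 (Nat.dvd_of_mem_primeFactors h1)
    exact ⟨a, Nat.mem_primeFactors.2 ⟨hq, ha, Int.natAbs_ne_zero.2 (hne a)⟩, h2⟩

end Pool.Agent.H583.WT
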